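import Pool.Agent.FQT.Om
import Pool.Agent.FQA.Iface

/-!
# The action of the automorphisms of `ℂ` on the roots and their connected components
-/

set_option autoImplicit false
set_option linter.unusedSectionVars false

namespace Pool.Agent.FQT

open Module
open Pool.Agent.CoprimeSig (ratM HS)
open Pool.Agent.PrimePow.CC (Rf Rt Lat)
open Pool.Agent.FQA (Cn)

section Equiv

variable {Ω Ω' : Type*} [Fintype Ω] [Fintype Ω'] {L : AddSubgroup (Ω → ℚ)}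
  {L' : AddSubgroup (Ω' → ℚ)}

theorem dot_equiv (ε : Ω ≃ Ω') (f f' : Ω' → ℚ) : (f ∘ ε) ⬝ᵥ (f' ∘ ε) = f ⬝ᵥ f' := by
  simp only [dotProduct, Function.comp_apply]
  exact Equiv.sum_comp ε fun ω => f ω * f' ω

private theorem rf_of_equiv (ε : Ω ≃ Ω') (hL : ∀ f, f ∈ L' ↔ f ∘ ε ∈ L) {h : Ω' → ℚ}
    {π : Equiv.Perm Ω'} (H : Rf L' h π) : Rf L (h ∘ ε) ((ε.trans π).trans ε.symm) where
  mem := (hL h).1 H.mem
  ne := fun h0 => H.ne (funext fun ω => by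
    have h1 := congrFun h0 (ε.symm ω)
    simpa using h1)
  val := fun ω => H.val (ε ω)
  refl := fun f hf => by
    have h1 : f ∘ ε.symm ∈ L' := by
      rw [hL]
      have h2 : (f ∘ ε.symm) ∘ ε = f := by
        funext ω
        simp
      rwa [h2]
    obtain ⟨a, ha⟩ := H.refl _ h1
    refine ⟨a, fun ω => ?_⟩
    have h3 := ha (ε ω)
    simpa using h3
  neg := fun ω => by
    have h1 := H.neg (ε ω)
    simpa using h1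

theorem rt_equiv (ε : Ω ≃ Ω') (hL : ∀ f, f ∈ L' ↔ f ∘ ε ∈ L) {h : Ω' → ℚ} :
    Rt L' h ↔ Rt L (h ∘ ε) := by
  constructor
  · rintro ⟨π, H⟩
    exact ⟨_, rf_of_equiv ε hL H⟩
  · rintro ⟨π, H⟩
    have hL' : ∀ f, f ∈ L ↔ f ∘ ε.symm ∈ L' := by
      intro f
      rw [hL]
      have h2 : (f ∘ ε.symm) ∘ ε = f := by
        funext ω
        simp
      rw [h2]
    have h1 := rf_of_equiv ε.symm hL' H
    have h2 : (h ∘ ε) ∘ ε.symm = h := by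
      funext ω
      simp
    rw [h2] at h1
    exact ⟨_, h1⟩

private theorem cn_of_equiv (ε : Ω ≃ Ω') (hL : ∀ f, f ∈ L' ↔ f ∘ ε ∈ L) {h k : Ω' → ℚ}
    (H : Cn L' h k) : Cn L (h ∘ ε) (k ∘ ε) := by
  induction H with
  | refl => exact Relation.ReflTransGen.refl
  | tail _ h2 ih =>
    refine Relation.ReflTransGen.tail ih ⟨(rt_equiv ε hL).1 h2.1, ?_⟩
    rw [dot_equiv]
    exact h2.2

theorem cn_equiv (ε : Ω ≃ Ω') (hL : ∀ f, f ∈ L' ↔ f ∘ ε ∈ L) {h k : Ω' → ℚ} :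
    Cn L' h k ↔ Cn L (h ∘ ε) (k ∘ ε) := by
  refine ⟨cn_of_equiv ε hL, fun H => ?_⟩
  have hL' : ∀ f, f ∈ L ↔ f ∘ ε.symm ∈ L' := by
    intro f
    rw [hL]
    have h2 : (f ∘ ε.symm) ∘ ε = f := by
      funext ω
      simp
    rw [h2]
  have h1 := cn_of_equiv ε.symm hL' H
  have h2 : ∀ f : Ω' → ℚ, (f ∘ ε) ∘ ε.symm = f := by
    intro f
    funext ω
    simp
  rwa [h2, h2] at h1

end Equiv

variable {ι : Type} [Fintype ι] [DecidableEq ι] {E : Type} [Field E]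
  {R : E →+* Matrix ι ι ℚ} {Φ : Matrix ι ι ℚ} {σ : E →+* ℂ} {γ γ' : ℂ ≃+* ℂ}
  {F F' G : ℂ → ℚ} {c : Set (ℂ → ℚ)}

/-- The action of an automorphism on the functions. -/
def mv (γ : ℂ ≃+* ℂ) (F : ℂ → ℚ) : ℂ → ℚ := fun μ => F (γ.symm μ)

/-- The action of an automorphism on the embeddings. -/
def cp (γ : ℂ ≃+* ℂ) (σ : E →+* ℂ) : E →+* ℂ := (γ : ℂ →+* ℂ).comp σ

theorem cp_apply (a : E) : cp γ σ a = γ (σ a) := rfl

theorem cp_one : cp (1 : ℂ ≃+* ℂ) σ = σ := rfl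

theorem cp_mul : cp (γ * γ') σ = cp γ (cp γ' σ) := rfl

theorem mv_one : mv (1 : ℂ ≃+* ℂ) F = F := rfl

theorem mv_mul : mv (γ * γ') F = mv γ (mv γ' F) := rfl

theorem mv_inj : Function.Injective (mv γ) := by
  intro F F' h
  funext μ
  have h1 := congrFun h (γ μ)
  simpa [mv] using h1

private theorem mv_mulVec (δ : ℂ ≃+* ℂ) (A : Matrix ι ι ℂ) (v : ι → ℂ) :
    (A.map δ).mulVec (fun i => δ (v i)) = fun i => δ (A.mulVec v i) := by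
  funext i
  rw [Matrix.mulVec, Matrix.mulVec, dotProduct, dotProduct, map_sum]
  exact Finset.sum_congr rfl fun j _ => by rw [Matrix.map_apply, map_mul]

private theorem mv_ratM (A : Matrix ι ι ℚ) (δ : ℂ ≃+* ℂ) : (ratM A).map δ = ratM A := by
  ext i j
  simp [ratM]

theorem conj_mem_HS (γ : ℂ ≃+* ℂ) {w : ι → ℂ} (hw : w ∈ HS R σ) :
    (fun i => γ (w i)) ∈ HS R (cp γ σ) := by
  intro r
  have h1 := mv_mulVec γ (ratM (R r)) w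
  rw [mv_ratM] at h1
  rw [h1, hw r]
  funext i
  simp [cp_apply]

theorem conj_eig (γ : ℂ ≃+* ℂ) {w : ι → ℂ} {μ : ℂ} (hw : (ratM Φ).mulVec w = μ • w) :
    (ratM Φ).mulVec (fun i => γ (w i)) = γ μ • fun i => γ (w i) := by
  have h1 := mv_mulVec γ (ratM Φ) w
  rw [mv_ratM] at h1
  rw [h1, hw]
  funext i
  simp

theorem mem_Om_cp (γ : ℂ ≃+* ℂ) {μ : ℂ} (hμ : μ ∈ Om R Φ σ) : γ μ ∈ Om R Φ (cp γ σ) := by
  obtain ⟨w, hw, hw0, h1⟩ := hμ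
  refine ⟨fun i => γ (w i), conj_mem_HS γ hw, ?_, conj_eig γ h1⟩
  intro h0
  apply hw0
  funext i
  exact (map_eq_zero_iff γ γ.injective).1 (congrFun h0 i)

theorem symm_mem_Om {μ : ℂ} (hμ : μ ∈ Om R Φ (cp γ σ)) : γ.symm μ ∈ Om R Φ σ := by
  have h1 := mem_Om_cp γ.symm hμ
  have h2 : cp γ.symm (cp γ σ) = σ := by
    ext a
    simp [cp_apply]
  rwa [h2] at h1

/-- The bijection of the eigenvalues given by an automorphism. -/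
def omE (R : E →+* Matrix ι ι ℚ) (Φ : Matrix ι ι ℚ) (γ : ℂ ≃+* ℂ) (σ : E →+* ℂ) :
    Om R Φ σ ≃ Om R Φ (cp γ σ) where
  toFun μ := ⟨γ μ, mem_Om_cp γ μ.2⟩
  invFun μ := ⟨γ.symm μ, symm_mem_Om μ.2⟩
  left_inv μ := by
    apply Subtype.ext
    simp
  right_inv μ := by
    apply Subtype.ext
    simp

theorem omE_apply (μ : Om R Φ σ) : ((omE R Φ γ σ μ : Om R Φ (cp γ σ)) : ℂ) = γ μ := rfl

theorem rs_mv : rs R Φ (cp γ σ) (mv γ F) ∘ omE R Φ γ σ = rs R Φ σ F := by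
  funext μ
  simp [rs_apply, omE_apply, mv]

private theorem ls_cp (hΦ : ⨆ μ, Module.End.eigenspace (Matrix.toLin' (ratM Φ)) μ = ⊤)
    (γ : ℂ ≃+* ℂ) {f : Om R Φ (cp γ σ) → ℚ} (hf : f ∈ Ls R Φ (cp γ σ)) :
    f ∘ omE R Φ γ σ ∈ Ls R Φ σ := by
  obtain ⟨h1, x, hx, hv⟩ := hf
  refine ⟨fun ω => h1 _, x.map γ.symm, map_mem_tor hx γ.symm hΦ, fun μ w hw hμ => ?_⟩
  have h2 := hv (omE R Φ γ σ μ) _ (conj_mem_HS γ hw) (conj_eig γ hμ)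
  have h3 := mv_mulVec γ.symm x (fun i => γ (w i))
  rw [h2] at h3
  have h4 : (fun i => γ.symm ((fun i => γ (w i)) i)) = w := by
    funext i
    simp
  rw [h4] at h3
  rw [h3]
  funext i
  simp

theorem mem_Ls_cp (hΦ : ⨆ μ, Module.End.eigenspace (Matrix.toLin' (ratM Φ)) μ = ⊤)
    (γ : ℂ ≃+* ℂ) (f : Om R Φ (cp γ σ) → ℚ) :
    f ∈ Ls R Φ (cp γ σ) ↔ f ∘ omE R Φ γ σ ∈ Ls R Φ σ := by
  refine ⟨ls_cp hΦ γ, fun hf => ?_⟩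
  obtain ⟨h1, x, hx, hv⟩ := hf
  refine ⟨fun ω => ?_, x.map γ, map_mem_tor hx γ hΦ, fun μ w hw hμ => ?_⟩
  · have h2 := h1 ((omE R Φ γ σ).symm ω)
    simpa using h2
  · have hw' : (fun i => γ.symm (w i)) ∈ HS R σ := by
      have h2 := conj_mem_HS γ.symm hw
      have h3 : cp γ.symm (cp γ σ) = σ := by
        ext a
        simp [cp_apply]
      rwa [h3] at h2
    have h2 := hv ((omE R Φ γ σ).symm μ) _ hw' (conj_eig γ.symm hμ)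
    have h3 := mv_mulVec γ x (fun i => γ.symm (w i))
    rw [h2] at h3
    have h4 : (fun i => γ ((fun i => γ.symm (w i)) i)) = w := by
      funext i
      simp
    rw [h4] at h3
    rw [h3]
    funext i
    simp

/-- `F` is a root of the lattice for `σ`, extended by zero. -/
structure Rts (R : E →+* Matrix ι ι ℚ) (Φ : Matrix ι ι ℚ) (σ : E →+* ℂ) (F : ℂ → ℚ) : Prop where
  supp : ∀ μ, μ ∉ Om R Φ σ → F μ = 0
  rt : Rt (Ls R Φ σ) (rs R Φ σ F)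

/-- `F` and `F'` are connected. -/
def Cns (R : E →+* Matrix ι ι ℚ) (Φ : Matrix ι ι ℚ) (σ : E →+* ℂ) (F F' : ℂ → ℚ) : Prop :=
  Cn (Ls R Φ σ) (rs R Φ σ F) (rs R Φ σ F')

theorem Cns.refl : Cns R Φ σ F F := Relation.ReflTransGen.refl

theorem Cns.trans (h : Cns R Φ σ F F') (h' : Cns R Φ σ F' G) : Cns R Φ σ F G :=
  Relation.ReflTransGen.trans h h'

theorem Cns.symm (h : Cns R Φ σ F F') (H : Rts R Φ σ F) : Cns R Φ σ F' F := Cn.symm h H.rt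

/-- Every root extends by zero. -/
theorem exists_rts {f : Om R Φ σ → ℚ} (hf : Rt (Ls R Φ σ) f) :
    ∃ F, Rts R Φ σ F ∧ rs R Φ σ F = f := by
  classical
  have h1 : rs R Φ σ (fun μ => if h : μ ∈ Om R Φ σ then f ⟨μ, h⟩ else 0) = f := by
    funext μ
    rw [rs_apply, dif_pos μ.2]
  refine ⟨_, ⟨fun μ hμ => dif_neg hμ, ?_⟩, h1⟩
  rwa [h1]

theorem rts_ext (h : Rts R Φ σ F) (h' : Rts R Φ σ F') (he : rs R Φ σ F = rs R Φ σ F') :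
    F = F' := by
  funext μ
  by_cases hμ : μ ∈ Om R Φ σ
  · exact congrFun he ⟨μ, hμ⟩
  · rw [h.supp μ hμ, h'.supp μ hμ]

theorem Rts.mv (hΦ : ⨆ μ, Module.End.eigenspace (Matrix.toLin' (ratM Φ)) μ = ⊤)
    (γ : ℂ ≃+* ℂ) (h : Rts R Φ σ F) : Rts R Φ (cp γ σ) (mv γ F) := by
  refine ⟨fun μ hμ => h.supp _ fun h1 => hμ ?_, ?_⟩
  · have h2 := mem_Om_cp γ h1
    rwa [RingEquiv.apply_symm_apply] at h2
  · rw [rt_equiv (omE R Φ γ σ) (mem_Ls_cp hΦ γ), rs_mv]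
    exact h.rt

theorem dot_mv (γ : ℂ ≃+* ℂ) (F F' : ℂ → ℚ) :
    rs R Φ (cp γ σ) (FQT.mv γ F) ⬝ᵥ rs R Φ (cp γ σ) (FQT.mv γ F') =
      rs R Φ σ F ⬝ᵥ rs R Φ σ F' := by
  rw [← dot_equiv (omE R Φ γ σ), rs_mv, rs_mv]

theorem cns_mv (hΦ : ⨆ μ, Module.End.eigenspace (Matrix.toLin' (ratM Φ)) μ = ⊤)
    (γ : ℂ ≃+* ℂ) : Cns R Φ (cp γ σ) (FQT.mv γ F) (FQT.mv γ F') ↔ Cns R Φ σ F F' := by
  unfold Cns
  rw [cn_equiv (omE R Φ γ σ) (mem_Ls_cp hΦ γ), rs_mv, rs_mv]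

/-- The component of `F`. -/
def cmp (R : E →+* Matrix ι ι ℚ) (Φ : Matrix ι ι ℚ) (σ : E →+* ℂ) (F : ℂ → ℚ) : Set (ℂ → ℚ) :=
  {F' | Rts R Φ σ F' ∧ Cns R Φ σ F F'}

/-- `c` is a connected component of the set of roots for `σ`. -/
def IsCmp (R : E →+* Matrix ι ι ℚ) (Φ : Matrix ι ι ℚ) (σ : E →+* ℂ) (c : Set (ℂ → ℚ)) : Prop :=
  ∃ F, Rts R Φ σ F ∧ c = cmp R Φ σ F

/-- The set of the roots connected with a root to which `G` is not orthogonal. -/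
def tch (R : E →+* Matrix ι ι ℚ) (Φ : Matrix ι ι ℚ) (σ : E →+* ℂ) (G : ℂ → ℚ) : Set (ℂ → ℚ) :=
  {F | Rts R Φ σ F ∧ ∃ F', Rts R Φ σ F' ∧ rs R Φ σ G ⬝ᵥ rs R Φ σ F' ≠ 0 ∧ Cns R Φ σ F' F}

private theorem mv_symm_mv (γ : ℂ ≃+* ℂ) (F : ℂ → ℚ) : FQT.mv γ.symm (FQT.mv γ F) = F := by
  funext μ
  simp [FQT.mv]

private theorem mv_mv_symm (γ : ℂ ≃+* ℂ) (F : ℂ → ℚ) : FQT.mv γ (FQT.mv γ.symm F) = F := by
  funext μ
  simp [FQT.mv]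

private theorem cp_symm_cp (γ : ℂ ≃+* ℂ) (σ : E →+* ℂ) : cp γ.symm (cp γ σ) = σ := by
  ext a
  simp [cp_apply]

theorem rts_of_mv (hΦ : ⨆ μ, Module.End.eigenspace (Matrix.toLin' (ratM Φ)) μ = ⊤)
    {γ : ℂ ≃+* ℂ} (h : Rts R Φ (cp γ σ) F) : Rts R Φ σ (FQT.mv γ.symm F) := by
  have h1 := h.mv hΦ γ.symm
  rwa [cp_symm_cp] at h1

theorem cmp_mv (hΦ : ⨆ μ, Module.End.eigenspace (Matrix.toLin' (ratM Φ)) μ = ⊤)
    (γ : ℂ ≃+* ℂ) (F : ℂ → ℚ) :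
    cmp R Φ (cp γ σ) (FQT.mv γ F) = FQT.mv γ '' cmp R Φ σ F := by
  ext F'
  constructor
  · rintro ⟨h1, h2⟩
    refine ⟨FQT.mv γ.symm F', ⟨rts_of_mv hΦ h1, ?_⟩, mv_mv_symm γ F'⟩
    rw [← cns_mv hΦ γ, mv_mv_symm]
    exact h2
  · rintro ⟨F'', ⟨h1, h2⟩, rfl⟩
    exact ⟨h1.mv hΦ γ, (cns_mv hΦ γ).2 h2⟩

theorem isCmp_mv (hΦ : ⨆ μ, Module.End.eigenspace (Matrix.toLin' (ratM Φ)) μ = ⊤)
    (γ : ℂ ≃+* ℂ) (h : IsCmp R Φ σ c) : IsCmp R Φ (cp γ σ) (FQT.mv γ '' c) := by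
  obtain ⟨F, h1, rfl⟩ := h
  exact ⟨FQT.mv γ F, h1.mv hΦ γ, (cmp_mv hΦ γ F).symm⟩

theorem tch_mv (hΦ : ⨆ μ, Module.End.eigenspace (Matrix.toLin' (ratM Φ)) μ = ⊤)
    (γ : ℂ ≃+* ℂ) (G : ℂ → ℚ) :
    tch R Φ (cp γ σ) (FQT.mv γ G) = FQT.mv γ '' tch R Φ σ G := by
  ext F
  constructor
  · rintro ⟨h1, F', h2, h3, h4⟩
    refine ⟨FQT.mv γ.symm F, ⟨rts_of_mv hΦ h1, FQT.mv γ.symm F', rts_of_mv hΦ h2, ?_, ?_⟩,
      mv_mv_symm γ F⟩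
    · rw [← dot_mv γ, mv_mv_symm]
      exact h3
    · rw [← cns_mv hΦ γ, mv_mv_symm, mv_mv_symm]
      exact h4
  · rintro ⟨F, ⟨h1, F', h2, h3, h4⟩, rfl⟩
    refine ⟨h1.mv hΦ γ, FQT.mv γ F', h2.mv hΦ γ, ?_, (cns_mv hΦ γ).2 h4⟩
    rw [dot_mv]
    exact h3

/-- The set touched by a function is a component if it is not empty and the function touches only
one component. -/
theorem tch_eq (h1 : ∃ F, Rts R Φ σ F ∧ rs R Φ σ G ⬝ᵥ rs R Φ σ F ≠ 0)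
    (h2 : ∀ F F', Rts R Φ σ F → rs R Φ σ G ⬝ᵥ rs R Φ σ F ≠ 0 → Rts R Φ σ F' →
      rs R Φ σ G ⬝ᵥ rs R Φ σ F' ≠ 0 → Cns R Φ σ F F') :
    IsCmp R Φ σ (tch R Φ σ G) := by
  obtain ⟨F, hF, h0⟩ := h1
  refine ⟨F, hF, ?_⟩
  ext F'
  constructor
  · rintro ⟨h3, F'', h4, h5, h6⟩
    exact ⟨h3, (h2 F F'' hF h0 h4 h5).trans h6⟩
  · rintro ⟨h3, h4⟩
    exact ⟨h3, F, hF, h0, h4⟩

/-- Functions which touch connected roots touch the same set. -/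
theorem tch_congr {G' : ℂ → ℚ} (h1 : ∃ F, Rts R Φ σ F ∧ rs R Φ σ G ⬝ᵥ rs R Φ σ F ≠ 0)
    (h1' : ∃ F, Rts R Φ σ F ∧ rs R Φ σ G' ⬝ᵥ rs R Φ σ F ≠ 0)
    (h2 : ∀ F F', Rts R Φ σ F → rs R Φ σ G ⬝ᵥ rs R Φ σ F ≠ 0 → Rts R Φ σ F' →
      rs R Φ σ G' ⬝ᵥ rs R Φ σ F' ≠ 0 → Cns R Φ σ F F') :
    tch R Φ σ G = tch R Φ σ G' := by
  obtain ⟨F, hF, h0⟩ := h1
  obtain ⟨F₁, hF₁, h0₁⟩ := h1'
  ext F'
  constructor
  · rintro ⟨h3, F'', h4, h5, h6⟩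
    exact ⟨h3, F₁, hF₁, h0₁, ((h2 F'' F₁ h4 h5 hF₁ h0₁).symm h4).trans h6⟩
  · rintro ⟨h3, F'', h4, h5, h6⟩
    exact ⟨h3, F, hF, h0, (h2 F F'' hF h0 h4 h5).trans h6⟩

/-- The finitely many components. -/
theorem finite_rts (R : E →+* Matrix ι ι ℚ) (Φ : Matrix ι ι ℚ) (σ : E →+* ℂ) :
    {F | Rts R Φ σ F}.Finite := by
  have h1 : {f : Om R Φ σ → ℚ | ∀ ω, f ω ∈ ({-1, 0, 1} : Set ℚ)}.Finite :=
    (Set.Finite.pi' fun _ : Om R Φ σ => ({-1, 0, 1} : Set ℚ).toFinite)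
  refine Set.Finite.of_finite_image (f := rs R Φ σ) (h1.subset ?_) ?_
  · rintro _ ⟨F, hF, rfl⟩ ω
    obtain ⟨π, H⟩ := hF.rt
    rcases H.val ω with h2 | h2 | h2 <;> rw [h2] <;> simp
  · intro F hF F' hF' he
    exact rts_ext hF hF' he

/-- The pairs of an embedding and a component. -/
def Prs (R : E →+* Matrix ι ι ℚ) (Φ : Matrix ι ι ℚ) : Type :=
  {q : (E →+* ℂ) × Set (ℂ → ℚ) // IsCmp R Φ q.1 q.2}

theorem finite_prs [NumberField E] (R : E →+* Matrix ι ι ℚ) (Φ : Matrix ι ι ℚ) :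
    Finite (Prs R Φ) := by
  have h1 : ∀ σ : E →+* ℂ, {c | IsCmp R Φ σ c}.Finite := by
    intro σ
    refine ((finite_rts R Φ σ).image (cmp R Φ σ)).subset ?_
    rintro c ⟨F, hF, rfl⟩
    exact ⟨F, hF, rfl⟩
  have h2 : {q : (E →+* ℂ) × Set (ℂ → ℚ) | IsCmp R Φ q.1 q.2}.Finite := by
    refine ((Set.finite_univ (α := E →+* ℂ)).biUnion fun σ _ =>
      (h1 σ).image fun c => (σ, c)).subset ?_
    rintro ⟨σ, c⟩ h
    exact Set.mem_biUnion (Set.mem_univ σ) ⟨c, h, rfl⟩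
  exact h2.to_subtype

end Pool.Agent.FQT
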