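import Pool.Agent.FQA.Spread
import Pool.Agent.FQ.Grade
import Pool.Agent.FQ.TubeI

/-!
# The symplectic case: an idempotent `e` conjugate to `1 - e`
-/

set_option autoImplicit false
set_option linter.unusedSectionVars false

namespace Pool.Agent.FQT

open Module

variable {K V : Type*} [Field K] [CharZero K] [IsAlgClosed K] [AddCommGroup V] [Module K V]
  [FiniteDimensional K V]

/-- A skew endomorphism has trace zero. -/
theorem trace_of_skew {ψ : V →ₗ[K] V →ₗ[K] K} (hnd : ∀ x, (∀ y, ψ x y = 0) → x = 0)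
    {x : End K V} (hx : ∀ u v, ψ (x u) v + ψ u (x v) = 0) : LinearMap.trace K V x = 0 := by
  have hinj : Function.Injective ψ := by
    rw [injective_iff_map_eq_zero]
    exact fun x hx => hnd x fun y => by rw [hx, LinearMap.zero_apply]
  let J : V ≃ₗ[K] Module.Dual K V :=
    LinearMap.linearEquivOfInjective ψ hinj Subspace.dual_finrank_eq.symm
  have hJ : ∀ v, J v = ψ v := fun v => rfl
  have h1 : J.conj x = (-1 : K) • (Module.Dual.transpose (R := K) x : End K (Module.Dual K V)) := by
    apply LinearMap.ext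
    intro φ
    obtain ⟨u, rfl⟩ := J.surjective φ
    rw [LinearEquiv.conj_apply_apply, LinearEquiv.symm_apply_apply]
    apply LinearMap.ext
    intro v
    rw [hJ, LinearMap.smul_apply, LinearMap.smul_apply, smul_eq_mul]
    have h2 := hx u v
    have h3 : (Module.Dual.transpose (R := K) x) (J u) v = ψ u (x v) := rfl
    rw [h3]
    linear_combination h2
  have h2 : LinearMap.trace K V x = LinearMap.trace K (Module.Dual K V) (J.conj x) :=
    (LinearMap.trace_conj' x J).symm
  have h3 : LinearMap.trace K (Module.Dual K V) (Module.Dual.transpose (R := K) x) =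
      LinearMap.trace K V x := LinearMap.trace_transpose' x
  rw [h1, map_smul, h3, smul_eq_mul, neg_one_mul] at h2
  exact self_eq_neg.1 h2

/-- Twice the trace of a similitude. -/
theorem trace_of_sim {ψ : V →ₗ[K] V →ₗ[K] K} (hnd : ∀ x, (∀ y, ψ x y = 0) → x = 0)
    {x : End K V} {κ : K} (hx : ∀ u v, ψ (x u) v + ψ u (x v) = κ * ψ u v) :
    2 * LinearMap.trace K V x = κ * finrank K V := by
  have h1 := trace_of_skew (x := x - (κ / 2) • 1) hnd (fun u v => by
    simp only [LinearMap.sub_apply, LinearMap.smul_apply, Module.End.one_apply, map_sub, map_smul,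
      smul_eq_mul]
    linear_combination hx u v)
  rw [map_sub, map_smul, LinearMap.trace_one, smul_eq_mul] at h1
  linear_combination 2 * h1

theorem full_of_conj {g : Submodule K (End K V)} {e : End K V} (G : SmallRank.Gr g e)
    {ψ : V →ₗ[K] V →ₗ[K] K} (halt : ∀ x, ψ x x = 0) (hnd : ∀ x, (∀ y, ψ x y = 0) → x = 0)
    (hgsp : ∀ x ∈ g, ∃ κ : K, ∀ u w, ψ (x u) w + ψ u (x w) = κ * ψ u w)
    (hmul : ∀ u w, ψ (e u) w + ψ u (e w) = ψ u w) {u : (End K V)ˣ} (hu : u ∈ FQ.expG K g)
    (hue : (u : End K V) * e * ((u⁻¹ : (End K V)ˣ) : End K V) = 1 - e)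
    (hn : ∀ m : ℕ, 5 ≤ m → finrank K V ≠ 2 ^ m) {D : End K V}
    (hD : ∀ u w, ψ (D u) w + ψ u (D w) = 0) : D ∈ g := by
  have hnt : Nontrivial V := G.nontrivial
  let g' : Submodule K (End K V) :=
    { carrier := {x | x ∈ g ∧ ∀ u w, ψ (x u) w + ψ u (x w) = 0}
      add_mem' := by
        rintro x y ⟨h1, h2⟩ ⟨h3, h4⟩
        refine ⟨g.add_mem h1 h3, fun u w => ?_⟩
        simp only [LinearMap.add_apply, map_add]
        linear_combination h2 u w + h4 u w
      zero_mem' := ⟨g.zero_mem, fun u w => by simp⟩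
      smul_mem' := by
        rintro c x ⟨h1, h2⟩
        refine ⟨g.smul_mem c h1, fun u w => ?_⟩
        simp only [LinearMap.smul_apply, map_smul, smul_eq_mul]
        linear_combination c * h2 u w }
  have hle : g' ≤ g := fun x hx => hx.1
  -- every element of `g` is the sum of an element of `g'` and a scalar
  have hdec : ∀ x ∈ g, ∃ y ∈ g', ∃ c : K, x = y + c • 1 := by
    intro x hx
    obtain ⟨κ, hκ⟩ := hgsp x hx
    refine ⟨x - (κ / 2) • 1, ⟨g.sub_mem hx (g.smul_mem _ G.one), fun u w => ?_⟩, κ / 2, by abel⟩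
    simp only [LinearMap.sub_apply, LinearMap.smul_apply, Module.End.one_apply, map_sub, map_smul,
      smul_eq_mul]
    linear_combination hκ u w
  have hlie : ∀ x ∈ g', ∀ y ∈ g', x * y - y * x ∈ g' := by
    rintro x ⟨h1, h2⟩ y ⟨h3, h4⟩
    refine ⟨G.lie x h1 y h3, fun u w => ?_⟩
    simp only [LinearMap.sub_apply, Module.End.mul_apply, map_sub]
    linear_combination h2 (y u) w + h2 u (y w) - h4 (x u) w - h4 u (x w)
  have hskew : ∀ x ∈ g', ∀ u w, ψ (x u) w + ψ u (x w) = 0 := fun x hx => hx.2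
  have htr : ∀ x ∈ g', LinearMap.trace K V x = 0 := fun x hx => trace_of_skew hnd hx.2
  have he : (2 : K) • e - 1 ∈ g' := by
    refine ⟨g.sub_mem (g.smul_mem _ G.mem) G.one, fun u w => ?_⟩
    simp only [LinearMap.sub_apply, LinearMap.smul_apply, Module.End.one_apply, map_sub, map_smul,
      smul_eq_mul]
    linear_combination 2 * hmul u w
  have hirr : ∀ W : Submodule K V, (∀ x ∈ g', ∀ w ∈ W, x w ∈ W) → W = ⊥ ∨ W = ⊤ := by
    intro W hW
    refine G.irr W fun x hx w hw => ?_
    obtain ⟨y, hy, c, rfl⟩ := hdec x hx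
    rw [LinearMap.add_apply, LinearMap.smul_apply, Module.End.one_apply]
    exact W.add_mem (hW y hy w hw) (W.smul_mem c hw)
  have h2e : ∀ c : K, (2 : K) • e - 1 ≠ c • 1 := by
    intro c hc
    have h1 := FQA.TD.not_scalar (K := K) (V := V) G.idem G.ne0 G.ne1 2 1 two_ne_zero c
    rw [one_smul] at h1
    exact h1 hc
  have hid : ∀ s : Submodule K (End K V), s ≤ g' → (∀ x ∈ g', ∀ y ∈ s, x * y - y * x ∈ s) →
      (2 : K) • e - 1 ∈ s → s = g' := by
    intro s hs hs2 hs3
    refine le_antisymm hs fun x hx => ?_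
    have h1 := G.simple s (hs.trans hle) (fun x hx z hz => by
      obtain ⟨y, hy, c, rfl⟩ := hdec x hx
      have h2 : (y + c • 1) * z - z * (y + c • 1) = y * z - z * y := by
        rw [add_mul, mul_add, smul_mul_assoc, mul_smul_comm, one_mul, mul_one]
        abel
      rw [h2]
      exact hs2 y hy z hz) (fun z hz => htr z (hs hz)) (by
        intro h0
        rw [h0, Submodule.mem_bot] at hs3
        exact h2e 0 (by rw [hs3, zero_smul])) x hx.1
    obtain ⟨a, ha, c, hac⟩ := h1
    have h2 : c = 0 := by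
      have h3 := htr x hx
      rw [hac, map_add, htr a (hs ha), zero_add, map_smul, LinearMap.trace_one, smul_eq_mul] at h3
      rcases mul_eq_zero.1 h3 with h4 | h4
      · exact h4
      · rw [Nat.cast_eq_zero] at h4
        exact absurd h4 finrank_pos.ne'
    rw [hac, h2, zero_smul, add_zero]
    exact ha
  -- the exponentials of nilpotent elements
  have hnil : ∀ N ∈ g, IsNilpotent N → N ∈ g' := by
    intro N hN hnil
    obtain ⟨κ, hκ⟩ := hgsp N hN
    have h1 := trace_of_sim hnd hκ
    have h2 : LinearMap.trace K V N = 0 := by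
      have h3 := LinearMap.isNilpotent_trace_of_isNilpotent hnil
      exact h3.eq_zero
    rw [h2, mul_zero] at h1
    have h3 : κ = 0 := by
      rcases mul_eq_zero.1 h1.symm with h4 | h4
      · exact h4
      · rw [Nat.cast_eq_zero] at h4
        exact absurd h4 finrank_pos.ne'
    refine ⟨hN, fun u w => ?_⟩
    rw [hκ, h3, zero_mul]
  have hu' : u ∈ FQ.expG K g' := by
    have hle : FQ.expG K g ≤ FQ.expG K g' := by
      unfold FQ.expG
      refine Subgroup.closure_mono ?_
      rintro x ⟨N, hN, hx⟩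
      refine ⟨N, hnil N hN ?_, hx⟩
      obtain ⟨k, hk, -⟩ := hx
      exact ⟨k, hk⟩
    exact hle hu
  obtain ⟨x, hx, hex, hxe, hinj⟩ := FQ.exists_tube hlie G.idem he hu' hue
  exact (FQ.tube_sp halt hnd hlie hskew G.idem hmul he hx hex hxe hinj
    (fun W h1 h2 => FQ.irr_graded hlie htr hirr G.idem he hid W h1 h2) hn D hD).1

end Pool.Agent.FQT
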