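import Pool.Agent.FQT.Full
import Pool.Agent.FQT.Cart

/-!
# The Lie algebra is spanned by idempotents of multiplier one
-/

set_option autoImplicit false
set_option linter.unusedSectionVars false

namespace Pool.Agent.FQT

open Module
open Pool.Agent.CoprimeSig (ratM HS endo mem_endo Cartan IsRoot mem_span_roots)

variable {ι : Type} [Fintype ι] [DecidableEq ι] {E : Type} [Field E]
  {R : E →+* Matrix ι ι ℚ} {Φ : Matrix ι ι ℚ} {σ : E →+* ℂ} {n : ℕ}
  {g : Submodule ℂ (Matrix ι ι ℂ)} {ψ : Matrix ι ι ℂ}

/-- The idempotents of multiplier one in `g`. -/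
def idp (g : Submodule ℂ (Matrix ι ι ℂ)) (ψ : Matrix ι ι ℂ) : Set (Matrix ι ι ℂ) :=
  {e | e ∈ g ∧ e * e = e ∧ e.transpose * ψ + ψ * e = ψ}

/-- An eigenvector of `ad e`, `e` idempotent. -/
theorem ad_idem {A : Type*} [Ring A] [Algebra ℂ A] {e z : A} (hee : e * e = e) {c : ℂ}
    (hc : c ≠ 0) (h : e * z - z * e = c • z) :
    (e + z) * (e + z) = e + z ∨ z = 0 := by
  have h1 : e * z = z * e + c • z := by rw [← h]; abel
  -- e z e in two ways
  have h2 : e * z * e = (1 + c) • (z * e) := by
    rw [h1, add_mul, mul_assoc, hee, smul_mul_assoc, add_smul, one_smul]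
  have h3 : e * z * e = (1 - c) • (e * z) := by
    have h4 : e * (e * z) = e * (z * e) + c • (e * z) := by rw [h1, mul_add, mul_smul_comm, ← h1]
    rw [← mul_assoc, hee, ← mul_assoc] at h4
    rw [sub_smul, one_smul]
    exact eq_sub_of_add_eq h4.symm
  -- z e is a multiple of z
  have h5 : (2 * c) • (z * e) = (c * (1 - c)) • z := by
    have h6 : (1 + c) • (z * e) = (1 - c) • (z * e + c • z) := by rw [← h1, ← h3, h2]
    have h7 : (2 * c) • (z * e) = (1 + c) • (z * e) - (1 - c) • (z * e) := by
      rw [← sub_smul]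
      congr 1
      ring
    rw [h7, h6, smul_add, smul_smul, add_sub_cancel_left, mul_comm]
  have h6 : z * e = ((1 - c) / 2) • z := by
    have h7 : z * e = (2 * c)⁻¹ • ((2 * c) • (z * e)) := by
      rw [smul_smul, inv_mul_cancel₀ (mul_ne_zero two_ne_zero hc), one_smul]
    rw [h7, h5, smul_smul]
    congr 1
    field_simp
  have h7 : e * z = ((1 + c) / 2) • z := by
    rw [h1, h6, ← add_smul]
    congr 1
    ring
  by_cases hz : z = 0
  · exact Or.inr hz
  left
  have h8 : ((1 - c) / 2) * ((1 - c) / 2) = (1 - c) / 2 := by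
    have h9 : z * (e * e) = z * e := by rw [hee]
    rw [← mul_assoc, h6, smul_mul_assoc, h6, smul_smul] at h9
    exact smul_left_injective ℂ hz h9
  have h9 : (1 - c) / 2 * ((1 - c) / 2 - 1) = 0 := by rw [mul_sub, mul_one, h8, sub_self]
  rcases mul_eq_zero.1 h9 with h10 | h10
  · -- c = 1
    have hc1 : c = 1 := by linear_combination (-2) * h10
    rw [hc1] at h6 h7
    norm_num at h6 h7
    have h11 : z * z = 0 := by
      calc z * z = z * (e * z) := by rw [h7]
        _ = z * e * z := by rw [mul_assoc]
        _ = 0 := by rw [h6, zero_mul]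
    rw [mul_add, add_mul, add_mul, hee, h6, h7, h11]
    abel
  · have hc1 : c = -1 := by linear_combination (-2) * h10
    rw [hc1] at h6 h7
    norm_num at h6 h7
    have h11 : z * z = 0 := by
      calc z * z = z * e * z := by rw [h6]
        _ = z * (e * z) := by rw [mul_assoc]
        _ = 0 := by rw [h7, mul_zero]
    rw [mul_add, add_mul, add_mul, hee, h6, h7, h11]
    abel

/-- **The Lie algebra is spanned by its idempotents of multiplier one.** -/
theorem span_idp [Nonempty ι] (M : Mono R Φ n g ψ) (H : IsFrob R Φ)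
    (htor : tor Φ ≤ Submodule.span ℂ {e : Matrix ι ι ℂ | e ∈ tor Φ ∧ e * e = e ∧
      2 * e.trace = Fintype.card ι}) : g ≤ Submodule.span ℂ (idp g ψ) := by
  have hle : {e : Matrix ι ι ℂ | e ∈ tor Φ ∧ e * e = e ∧ 2 * e.trace = Fintype.card ι} ⊆
      idp g ψ := fun e he => ⟨M.le he.1, he.2.1, mult_of_trace M (M.le he.1) he.2.2⟩
  have htor' : tor Φ ≤ Submodule.span ℂ (idp g ψ) := htor.trans (Submodule.span_mono hle)
  have hC := cartan M H
  have key : ∀ z : Matrix ι ι ℂ, (∃ α, IsRoot (endo g) (endo (tor Φ)) α (Matrix.toLin' z)) →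
      z ∈ Submodule.span ℂ (idp g ψ) := by
    rintro z ⟨α, hz⟩
    have hzg : z ∈ g := mem_endo.1 hz.mem
    by_cases hz0 : z = 0
    · rw [hz0]
      exact Submodule.zero_mem _
    have hroot : ∀ x ∈ tor Φ, x * z - z * x = α (Matrix.toLin' x) • z := by
      intro x hx
      have h1 := hz.root _ (mem_endo.2 hx)
      have h2 : Matrix.toLin' (x * z - z * x) = Matrix.toLin' (α (Matrix.toLin' x) • z) := by
        rw [map_sub, map_smul, Matrix.toLin'_mul, Matrix.toLin'_mul]
        exact h1
      exact (Matrix.toLin' (R := ℂ)).injective h2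
    by_cases hα : ∃ e : Matrix ι ι ℂ, (e ∈ tor Φ ∧ e * e = e ∧ 2 * e.trace = Fintype.card ι) ∧
        α (Matrix.toLin' e) ≠ 0
    · obtain ⟨e, ⟨he, hee, htr⟩, h0⟩ := hα
      have h1 := hroot e he
      have h2 := (ad_idem hee h0 h1).resolve_right hz0
      have h3 : z.trace = 0 := by
        have h4 : (e * z - z * e).trace = 0 := by
          rw [Matrix.trace_sub, Matrix.trace_mul_comm, sub_self]
        rw [h1, Matrix.trace_smul, smul_eq_mul] at h4
        exact (mul_eq_zero.1 h4).resolve_left h0
      have h4 : e + z ∈ idp g ψ := ⟨g.add_mem (M.le he) hzg, h2,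
        mult_of_trace M (g.add_mem (M.le he) hzg) (by rw [Matrix.trace_add, h3, add_zero, htr])⟩
      have h5 := (Submodule.span ℂ (idp g ψ)).sub_mem (Submodule.subset_span h4)
        (Submodule.subset_span (hle ⟨he, hee, htr⟩))
      rwa [add_sub_cancel_left] at h5
    · push Not at hα
      refine htor' (M.cent z hzg fun y hy => ?_)
      have h1 : ∀ y ∈ tor Φ, y * z - z * y = 0 := by
        intro y hy
        have h2 := htor hy
        clear hy
        induction h2 using Submodule.span_induction with
        | mem e he => rw [hroot e he.1, hα e he, zero_smul]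
        | zero => rw [zero_mul, mul_zero, sub_zero]
        | add a b _ _ ha hb =>
          have h3 : (a + b) * z - z * (a + b) = (a * z - z * a) + (b * z - z * b) := by
            rw [add_mul, mul_add]
            abel
          rw [h3, ha, hb, add_zero]
        | smul c a _ ha =>
          have h3 : (c • a) * z - z * (c • a) = c • (a * z - z * a) := by
            rw [smul_mul_assoc, mul_smul_comm, smul_sub]
          rw [h3, ha, smul_zero]
      exact (sub_eq_zero.1 (h1 y hy)).symm
  intro x hx
  have h1 := mem_span_roots hC (mem_endo.2 hx)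
  have h2 : ∀ y ∈ Submodule.span ℂ {z | ∃ α, IsRoot (endo g) (endo (tor Φ)) α z},
      LinearMap.toMatrix' y ∈ Submodule.span ℂ (idp g ψ) := by
    intro y hy
    induction hy using Submodule.span_induction with
    | mem z hz =>
      apply key
      obtain ⟨α, hα⟩ := hz
      exact ⟨α, by rwa [Matrix.toLin'_toMatrix']⟩
    | zero =>
      rw [map_zero]
      exact Submodule.zero_mem _
    | add a b _ _ ha hb =>
      rw [map_add]
      exact Submodule.add_mem _ ha hb
    | smul c a _ ha =>
      rw [map_smul]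
      exact Submodule.smul_mem _ c ha
  have h3 := h2 _ h1
  rwa [LinearMap.toMatrix'_toLin'] at h3

end Pool.Agent.FQT
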