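import Pool.Agent.FQT.FullB
import Pool.Agent.FQT.SpanG
import Pool.Agent.TypeIV.CommMixed

/-!
# From the irreducible subspaces to the Lie algebra
-/

set_option autoImplicit false
set_option linter.unusedSectionVars false

namespace Pool.Agent.FQT

open Module
open Pool.Agent.CoprimeSig (ratM HS endo mem_endo Cartan)
open Pool.Agent.OddRank (Stable Irreducible Semisimple lieSpan subset_lieSpan lieSpan_le FormOn
  simil_irr exists_family mm)
open Pool.Agent.TypeIV (derivedSpan derived_le)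
open Pool.Agent.TypeIV.MX (KSp commutant_mixed)

variable {ι : Type} [Fintype ι] [DecidableEq ι] {E : Type} [Field E]
  {R : E →+* Matrix ι ι ℚ} {Φ : Matrix ι ι ℚ} {σ : E →+* ℂ} {n : ℕ}
  {g : Submodule ℂ (Matrix ι ι ℂ)} {ψ : Matrix ι ι ℂ}

/-- The form with the matrix `ψ`. -/
noncomputable def bil (ψ : Matrix ι ι ℂ) : (ι → ℂ) →ₗ[ℂ] (ι → ℂ) →ₗ[ℂ] ℂ :=
  Matrix.toLinearMap₂' ℂ ψ

theorem bil_apply (u v : ι → ℂ) : bil ψ u v = dotProduct u (ψ.mulVec v) :=
  Matrix.toLinearMap₂'_apply' _ _ _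

theorem bil_toLin (A : Matrix ι ι ℂ) (u v : ι → ℂ) :
    bil ψ (Matrix.toLin' A u) v + bil ψ u (Matrix.toLin' A v) =
      dotProduct u ((A.transpose * ψ + ψ * A).mulVec v) := by
  rw [bil_apply, bil_apply, Matrix.toLin'_apply, Matrix.toLin'_apply, Matrix.add_mulVec,
    dotProduct_add, ← Matrix.mulVec_mulVec, ← Matrix.mulVec_mulVec, Matrix.dotProduct_mulVec u
      A.transpose, Matrix.vecMul_transpose]

theorem bil_nondeg (hψ : IsUnit ψ) (x : ι → ℂ) (hx : ∀ y, bil ψ x y = 0) : x = 0 := by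
  have h1 : ψ * ψ⁻¹ = 1 := Matrix.mul_nonsing_inv ψ ((Matrix.isUnit_iff_isUnit_det ψ).1 hψ)
  funext i
  have h4 := hx (ψ⁻¹.mulVec (Pi.single i 1))
  rw [bil_apply, Matrix.mulVec_mulVec, h1, Matrix.one_mulVec, dotProduct_single_one] at h4
  exact h4

/-- The set of the idempotents as endomorphisms. -/
def gens (g : Submodule ℂ (Matrix ι ι ℂ)) (ψ : Matrix ι ι ℂ) : Set (End ℂ (ι → ℂ)) :=
  {x | ∃ e ∈ idp g ψ, Matrix.toLin' e = x}

variable (M : Mono R Φ n g ψ) (hspan : g ≤ Submodule.span ℂ (idp g ψ))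
include M hspan

theorem gens_span {x : Matrix ι ι ℂ} (hx : x ∈ g) :
    Matrix.toLin' x ∈ Submodule.span ℂ (gens g ψ) := by
  have h1 := hspan hx
  clear hx
  induction h1 using Submodule.span_induction with
  | mem e he => exact Submodule.subset_span ⟨e, he, rfl⟩
  | zero =>
    rw [map_zero]
    exact Submodule.zero_mem _
  | add a b _ _ ha hb =>
    rw [map_add]
    exact Submodule.add_mem _ ha hb
  | smul c a _ ha =>
    rw [map_smul]
    exact Submodule.smul_mem _ c ha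

theorem span_le_lieSpan : Submodule.span ℂ (gens g ψ) ≤ lieSpan (gens g ψ) :=
  Submodule.span_le.2 fun x hx => subset_lieSpan x hx

theorem mem_lieSpan {x : Matrix ι ι ℂ} : Matrix.toLin' x ∈ lieSpan (gens g ψ) ↔ x ∈ g := by
  constructor
  · intro h
    have h1 : lieSpan (gens g ψ) ≤ endo g := by
      refine lieSpan_le ?_ ?_
      · rintro _ ⟨e, he, rfl⟩
        exact mem_endo.2 he.1
      · rintro _ ⟨a, ha, rfl⟩ _ ⟨b, hb, rfl⟩
        refine ⟨a * b - b * a, M.lie a ha b hb, ?_⟩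
        change Matrix.toLin' (a * b - b * a) = Matrix.toLin' a * Matrix.toLin' b -
          Matrix.toLin' b * Matrix.toLin' a
        rw [map_sub, Matrix.toLin'_mul, Matrix.toLin'_mul]
        rfl
    exact mem_endo.1 (h1 h)
  · intro h
    exact span_le_lieSpan M hspan (gens_span M hspan h)

theorem gens_stable {U : Submodule ℂ (ι → ℂ)} (hU : Stable (gens g ψ) U) :
    ∀ x ∈ g, ∀ u ∈ U, x.mulVec u ∈ U := by
  intro x hx u hu
  have h1 := OddRank.stable_span hU _ ((mem_lieSpan M hspan).2 hx) u hu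
  rwa [Matrix.toLin'_apply] at h1

omit M hspan in
theorem stable_gens {U : Submodule ℂ (ι → ℂ)} (hU : ∀ x ∈ g, ∀ u ∈ U, x.mulVec u ∈ U) :
    Stable (gens g ψ) U := by
  rintro _ ⟨e, he, rfl⟩ u hu
  rw [Matrix.toLin'_apply]
  exact hU e he.1 u hu

theorem gens_ss : Semisimple (gens g ψ) := by
  intro U hU
  obtain ⟨U', h1, h2⟩ := M.ss U (gens_stable M hspan hU)
  exact ⟨U', stable_gens h2, h1⟩

theorem gens_irr {W : Submodule ℂ (ι → ℂ)} (hW : Irreducible (gens g ψ) W) : Irr g W :=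
  ⟨gens_stable M hspan hW.1, hW.2.1, fun U hU h => hW.2.2 U (stable_gens h) hU⟩

omit M hspan in
theorem gens_mult {x : End ℂ (ι → ℂ)} (hx : x ∈ gens g ψ) (u v : ι → ℂ) :
    bil ψ (x u) v + bil ψ u (x v) = bil ψ u v := by
  obtain ⟨e, he, rfl⟩ := hx
  rw [bil_toLin, he.2.2, bil_apply]

/-- The kind of the irreducible subspaces. -/
theorem gens_ksp (H : IsFrob R Φ) (hI : Idem Φ)
    (hfull : ∀ (σ : E →+* ℂ) (W : Submodule ℂ (ι → ℂ)) (p : (ι → ℂ) →ₗ[ℂ] W)
      (v : Basis (Om R Φ σ) ℂ W), Frame R Φ g σ W p v → FullW g ψ p) {W : Submodule ℂ (ι → ℂ)}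
    (hW : Irreducible (gens g ψ) W) : KSp (gens g ψ) W := by
  have hWi := gens_irr M hspan hW
  obtain ⟨σ, hσ⟩ := exists_sig M hWi
  obtain ⟨p, P⟩ := exists_prj M hWi.1
  obtain ⟨v, F⟩ := exists_basis M H hI hWi P hσ
  obtain ⟨φ, hφ, hD⟩ := hfull σ W p v F
  have hskew : ∀ a b, φ a b = -φ b a := by
    intro a b
    have h1 := hφ.alt (a + b)
    simp only [map_add, LinearMap.add_apply, hφ.alt, zero_add, add_zero] at h1
    exact eq_neg_of_add_eq_zero_right h1
  refine ⟨φ, hφ.alt, hφ.nd, ?_, ?_⟩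
  · rintro _ ⟨e, he, rfl⟩ u u₂ w w₂ hu hw
    have h1 := hφ.mult e he.1 1 (by rw [one_smul]; exact he.2.2) u w
    have h2 : rm p e u = u₂ := Subtype.ext (by
      rw [rm_apply P (hWi.1 e he.1), hu, Matrix.toLin'_apply])
    have h3 : rm p e w = w₂ := Subtype.ext (by
      rw [rm_apply P (hWi.1 e he.1), hw, Matrix.toLin'_apply])
    rw [h2, h3, one_mul] at h1
    exact h1
  · intro u w
    have h1 : mm φ u w ∈ res p g := by
      refine hD _ fun a b => ?_
      simp only [OddRank.mm_apply, map_add, map_smul, LinearMap.add_apply, LinearMap.smul_apply,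
        smul_eq_mul]
      rw [hskew a w, hskew a u]
      ring
    obtain ⟨x, hx, hxm⟩ := mem_res.1 h1
    refine ⟨Matrix.toLin' x, (mem_lieSpan M hspan).2 hx, fun a => ?_⟩
    rw [← hxm, rm_apply P (hWi.1 x hx), Matrix.toLin'_apply]

/-- **The theorem.** -/
theorem mem_iff (H : IsFrob R Φ) (hI : Idem Φ)
    (hfull : ∀ (σ : E →+* ℂ) (W : Submodule ℂ (ι → ℂ)) (p : (ι → ℂ) →ₗ[ℂ] W)
      (v : Basis (Om R Φ σ) ℂ W), Frame R Φ g σ W p v → FullW g ψ p) (N : Matrix ι ι ℂ) :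
    N ∈ g ↔ (∃ m : ℂ, N.transpose * ψ + ψ * N = m • ψ) ∧
      ∀ Z : Matrix ι ι ℂ, (∀ x ∈ g, x * Z = Z * x) → N * Z = Z * N := by
  constructor
  · intro hN
    exact ⟨M.sim N hN, fun Z hZ => hZ N hN⟩
  rintro ⟨⟨m, hm⟩, hcomm⟩
  set D : Matrix ι ι ℂ := N - (m / 2) • 1 with hDdef
  have hnd := bil_nondeg M.unit
  have hss := gens_ss M hspan
  have hGe : ∀ x ∈ gens g ψ, x * x = x := by
    rintro _ ⟨e, he, rfl⟩
    have h1 : Matrix.toLin' e * Matrix.toLin' e = Matrix.toLin' (e * e) :=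
      (Matrix.toLin'_mul e e).symm
    rw [h1, he.2.1]
  have hD0 : D.transpose * ψ + ψ * D = 0 := by
    rw [hDdef, Matrix.transpose_sub, Matrix.transpose_smul, Matrix.transpose_one, sub_mul, mul_sub,
      Matrix.smul_mul, Matrix.mul_smul, one_mul, mul_one]
    calc N.transpose * ψ - (m / 2) • ψ + (ψ * N - (m / 2) • ψ)
        = (N.transpose * ψ + ψ * N) - m • ψ := by module
      _ = 0 := by rw [hm, sub_self]
  have hDskew : ∀ u v, bil ψ (Matrix.toLin' D u) v + bil ψ u (Matrix.toLin' D v) = 0 := by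
    intro u v
    rw [bil_toLin, hD0, Matrix.zero_mulVec, dotProduct_zero]
  have hDcomm : ∀ T : End ℂ (ι → ℂ), (∀ e ∈ gens g ψ, e * T = T * e) →
      Matrix.toLin' D * T = T * Matrix.toLin' D := by
    intro T hT
    obtain ⟨Z, rfl⟩ : ∃ Z : Matrix ι ι ℂ, Matrix.toLin' Z = T :=
      ⟨LinearMap.toMatrix' T, Matrix.toLin'_toMatrix' T⟩
    have h1 : ∀ x ∈ g, x * Z = Z * x := by
      intro x hx
      have h2 := OddRank.comm_span hT _ ((mem_lieSpan M hspan).2 hx)
      have h3 : Matrix.toLin' (x * Z) = Matrix.toLin' (Z * x) := by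
        rw [Matrix.toLin'_mul, Matrix.toLin'_mul]
        exact h2
      exact (Matrix.toLin' (R := ℂ)).injective h3
    have h2 := hcomm Z h1
    have h3 : D * Z = Z * D := by
      rw [hDdef, sub_mul, mul_sub, h2, Matrix.smul_mul, Matrix.mul_smul, one_mul, mul_one]
    have h4 : Matrix.toLin' (D * Z) = Matrix.toLin' (Z * D) := by rw [h3]
    rw [Matrix.toLin'_mul, Matrix.toLin'_mul] at h4
    exact h4
  obtain ⟨t, ht, hsup⟩ := exists_family hss
  have key := (commutant_mixed hnd hGe (fun e he u v => gens_mult he u v) hss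
    (fun W hW => Or.inr (Or.inl (gens_ksp M hspan H hI hfull hW))) (Matrix.toLin' D)).2
    ⟨hDskew, hDcomm, ?_⟩
  · have h1 := (mem_lieSpan M hspan).1 (derived_le key)
    have h2 := g.add_mem h1 (g.smul_mem (m / 2) M.one)
    rwa [hDdef, sub_add_cancel] at h2
  · intro W hW A hA
    obtain ⟨φ, h1, h2, h3⟩ := M.symp W (gens_irr M hspan hW)
    have hφ : FormOn (gens g ψ) W φ := by
      refine ⟨h1, h2, ?_⟩
      rintro _ ⟨e, he, rfl⟩ u hu w hw
      have h4 := h3 e he.1 1 (by rw [one_smul]; exact he.2.2) u hu w hw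
      rw [Matrix.toLin'_apply, Matrix.toLin'_apply]
      rwa [one_mul] at h4
    have h4 := simil_irr hss hnd (fun e he u v => gens_mult he u v) (D := Matrix.toLin' D)
      (κ := 0) (fun u v => by rw [hDskew, zero_mul]) hDcomm ht hsup hW hφ
    refine trace_of_skew (ψ := φ.compl₁₂ W.subtype W.subtype) (fun x hx => ?_) fun u w => ?_
    · exact Subtype.ext (h2 x x.2 fun y hy => hx ⟨y, hy⟩)
    · change φ (A u : ι → ℂ) w + φ u (A w : ι → ℂ) = 0
      rw [hA, hA, h4 u u.2 w w.2, zero_mul]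

end Pool.Agent.FQT
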