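import Pool.Agent.FQT.Om

/-!
# The complex conjugation and the idempotents of the torus (PACKAGE FT8)

Proof of `map_eq_one_sub`. (Compare `FQ.map_eq_one_sub` in `Pool/Agent/FQ/Real.lean`, where the form is
rational; copy and adapt.) Let `f = ev Φ e`, values `0`, `1`. For an eigenvalue `μ` of `Φ` the number
`τ μ = conj μ` is an eigenvalue (`Φ` is rational: the conjugate of an eigenvector), and
`μ * conj μ = r ^ 2 = ν * conj ν` for two eigenvalues `μ`, `ν`. `e ∈ tor Φ` has the scalars `d μ` on the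
eigenspaces, `d μ = f μ`, so the relation `μ * conj μ * ν⁻¹ * (conj ν)⁻¹ = 1` gives
`f μ + f (conj μ) = f ν + f (conj ν)` (careful with the exponents if some of the four numbers agree:
in `frobTorus` use `s = {μ, conj μ, ν, conj ν}` and
`n λ = [λ = μ] + [λ = conj μ] - [λ = ν] - [λ = conj ν]`). So `f μ + f (conj μ) = c` for all
eigenvalues, with `c` a constant. Sum over an eigenbasis of `Φ`: the multiplicities `m_μ` and
`m_(conj μ)` are equal (the eigenspaces are conjugate), `∑ m_μ f μ = trace e = card ι / 2` by `trace_mult`,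
so `c * card ι = 2 * trace e = card ι`, so `c = 1` (if `ι` is empty everything is trivial; for `c` one
can also argue: if `f μ + f (conj μ) = 0` for all `μ` then `f = 0`, `e = 0`, trace zero,
contradiction; if it is `2` then `e = 1`, contradiction; so no multiplicities are needed: `c` is `0`,
`1` or `2`). Then `e.map τ` has the value `f (τ⁻¹ μ) = f (conj μ) = 1 - f μ` on the eigenspace for `μ`
(`ev_map`; `τ⁻¹ μ = conj μ`, because `τ (conj μ) = conj (conj μ) = μ` as `conj μ` is an eigenvalue), so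
`e.map τ = 1 - e` by `ext_of_diag` (`e.map τ ∈ tor Φ` by `map_mem_tor`, is idempotent;
`ev_apply`).

`trace_mult`: multiply `eᵀ ψ + ψ e = ψ` by `ψ⁻¹` on the left and take traces. -/

set_option autoImplicit false
set_option linter.unusedSectionVars false

namespace Pool.Agent.FQT

open Module
open Pool.Agent.CoprimeSig (ratM HS)
open Pool.Agent.OneFrob (frobTorus)

variable {ι : Type} [Fintype ι] [DecidableEq ι] {E : Type} [Field E]
  {R : E →+* Matrix ι ι ℚ} {Φ : Matrix ι ι ℚ}

omit [DecidableEq ι] in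
private theorem rl_map (σ : ℂ ≃+* ℂ) (A : Matrix ι ι ℂ) (v : ι → ℂ) :
    (A.map σ).mulVec (fun i => σ (v i)) = fun i => σ (A.mulVec v i) := by
  ext i
  simp only [Matrix.mulVec, dotProduct, Matrix.map_apply, map_sum, map_mul]

private theorem rl_prod {s : Finset ℂ} {a : ℂ} (ha : a ∈ s) :
    ∏ x ∈ s, x ^ (if x = a then (1 : ℤ) else 0) = a := by
  classical
  rw [Finset.prod_eq_single a]
  · simp
  · intro b _ hb
    rw [if_neg hb, zpow_zero]
  · intro h
    exact absurd ha h

private theorem rl_sum {s : Finset ℂ} {a : ℂ} (ha : a ∈ s) (d : ℂ → ℂ) :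
    ∑ x ∈ s, (((if x = a then (1 : ℤ) else 0 : ℤ)) : ℂ) * d x = d a := by
  classical
  rw [Finset.sum_eq_single a]
  · simp
  · intro b _ hb
    rw [if_neg hb, Int.cast_zero, zero_mul]
  · intro h
    exact absurd ha h

/-- The relation between the eigenvalues. -/
private theorem rl_relation {Q : ℂ → Prop} {d : ℂ → ℂ}
    (hrel : ∀ s : Finset ℂ, (∀ μ ∈ s, Q μ) → ∀ n : ℂ → ℤ, ∏ μ ∈ s, μ ^ n μ = 1 →
      ∑ μ ∈ s, (n μ : ℂ) * d μ = 0) {a b a' b' : ℂ} (ha : Q a) (hb : Q b) (ha' : Q a') (hb' : Q b')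
    (ha0 : a ≠ 0) (hb0 : b ≠ 0) (ha0' : a' ≠ 0) (hb0' : b' ≠ 0) (h : a * b = a' * b') :
    d a + d b = d a' + d b' := by
  classical
  set s : Finset ℂ := {a, b, a', b'} with hs
  have ma : a ∈ s := by simp [hs]
  have mb : b ∈ s := by simp [hs]
  have ma' : a' ∈ s := by simp [hs]
  have mb' : b' ∈ s := by simp [hs]
  have hQ : ∀ x ∈ s, Q x := by
    intro x hx
    simp only [hs, Finset.mem_insert, Finset.mem_singleton] at hx
    rcases hx with rfl | rfl | rfl | rfl <;> assumption
  have h0 : ∀ x ∈ s, x ≠ 0 := by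
    intro x hx
    simp only [hs, Finset.mem_insert, Finset.mem_singleton] at hx
    rcases hx with rfl | rfl | rfl | rfl <;> assumption
  have e1 : ∏ x ∈ s, x ^ ((if x = a then (1 : ℤ) else 0) + (if x = b then (1 : ℤ) else 0) -
      (if x = a' then (1 : ℤ) else 0) - (if x = b' then (1 : ℤ) else 0)) = 1 := by
    have e2 : ∀ x ∈ s, x ^ ((if x = a then (1 : ℤ) else 0) + (if x = b then (1 : ℤ) else 0) -
        (if x = a' then (1 : ℤ) else 0) - (if x = b' then (1 : ℤ) else 0)) =
        (x ^ (if x = a then (1 : ℤ) else 0)) * (x ^ (if x = b then (1 : ℤ) else 0)) /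
          (x ^ (if x = a' then (1 : ℤ) else 0)) / (x ^ (if x = b' then (1 : ℤ) else 0)) := by
      intro x hx
      rw [zpow_sub₀ (h0 x hx), zpow_sub₀ (h0 x hx), zpow_add₀ (h0 x hx)]
    rw [Finset.prod_congr rfl e2, Finset.prod_div_distrib, Finset.prod_div_distrib,
      Finset.prod_mul_distrib, rl_prod ma, rl_prod mb, rl_prod ma', rl_prod mb', h]
    field_simp
  have e3 := hrel s hQ _ e1
  have e4 : ∑ x ∈ s, (((if x = a then (1 : ℤ) else 0) + (if x = b then (1 : ℤ) else 0) -
      (if x = a' then (1 : ℤ) else 0) - (if x = b' then (1 : ℤ) else 0) : ℤ) : ℂ) * d x =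
      d a + d b - d a' - d b' := by
    rw [← rl_sum ma d, ← rl_sum mb d, ← rl_sum ma' d, ← rl_sum mb' d, ← Finset.sum_add_distrib,
      ← Finset.sum_sub_distrib, ← Finset.sum_sub_distrib]
    refine Finset.sum_congr rfl fun x _ => ?_
    push_cast
    ring
  rw [e4] at e3
  linear_combination e3

omit [DecidableEq ι] in
private theorem rl_ext {f A B : Module.End ℂ (ι → ℂ)} (hdiag : ⨆ μ, f.eigenspace μ = ⊤)
    (h : ∀ μ, ∀ v ∈ f.eigenspace μ, v ≠ 0 → A v = B v) : A = B := by
  have h1 : ⨆ μ, f.eigenspace μ ≤ LinearMap.eqLocus A B := by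
    refine iSup_le fun μ v hv => ?_
    by_cases hv0 : v = 0
    · rw [hv0]
      exact Submodule.zero_mem _
    · exact h μ v hv hv0
  rw [hdiag] at h1
  exact LinearMap.ext fun v => h1 (Submodule.mem_top (x := v))

theorem trace_mult {ψ e : Matrix ι ι ℂ} {κ : ℂ} (hψ : IsUnit ψ)
    (h : e.transpose * ψ + ψ * e = κ • ψ) : 2 * e.trace = κ * Fintype.card ι := by
  obtain ⟨u, rfl⟩ := hψ
  set ψ : Matrix ι ι ℂ := (u : Matrix ι ι ℂ) with hψ
  set φ : Matrix ι ι ℂ := ((u⁻¹ : (Matrix ι ι ℂ)ˣ) : Matrix ι ι ℂ) with hφ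
  have h1 : ψ * φ = 1 := u.mul_inv
  have h2 : φ * ψ = 1 := u.inv_mul
  have h3 : (e.transpose * ψ * φ + φ * ψ * e).trace = (κ • (φ * ψ)).trace := by
    have h4 : (φ * (e.transpose * ψ) + φ * (ψ * e)) = κ • (φ * ψ) := by
      rw [← Matrix.mul_add, h, Matrix.mul_smul]
    rw [← h4, Matrix.trace_add, Matrix.trace_add, Matrix.trace_mul_comm φ (e.transpose * ψ),
      Matrix.mul_assoc φ ψ e]
  rw [Matrix.mul_assoc, h1, h2, Matrix.mul_one, Matrix.one_mul, Matrix.trace_add,
    Matrix.trace_transpose, Matrix.trace_smul, Matrix.trace_one, smul_eq_mul] at h3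
  rw [two_mul, h3]

theorem map_eq_one_sub (H : IsFrob R Φ) {e : Matrix ι ι ℂ} (he : e ∈ tor Φ) (hee : e * e = e)
    (htr : 2 * e.trace = Fintype.card ι) {τ : ℂ ≃+* ℂ}
    (hτ : ∀ μ, Module.End.HasEigenvalue (Matrix.toLin' (ratM Φ)) μ → τ μ = starRingEnd ℂ μ) :
    e.map τ = 1 - e := by
  classical
  obtain ⟨d, hd, hrel⟩ := he
  obtain ⟨r, hr, habs⟩ := H.abs
  have hdiag := H.diag
  set f : Module.End ℂ (ι → ℂ) := Matrix.toLin' (ratM Φ) with hf
  have heig : ∀ {μ : ℂ} {v : ι → ℂ}, v ∈ f.eigenspace μ ↔ (ratM Φ).mulVec v = μ • v := by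
    intro μ v
    rw [Module.End.mem_eigenspace_iff, hf, Matrix.toLin'_apply]
  have hval : ∀ {μ : ℂ} {v : ι → ℂ}, v ∈ f.eigenspace μ → v ≠ 0 → f.HasEigenvalue μ :=
    fun hv hv0 => Module.End.hasEigenvalue_of_hasEigenvector ⟨hv, hv0⟩
  have hfix : (ratM Φ).map τ = ratM Φ := by
    ext i j
    simp [ratM]
  have hfix' : (ratM Φ).map τ.symm = ratM Φ := by
    ext i j
    simp [ratM]
  -- the values of `d`
  have hd01 : ∀ μ, f.HasEigenvalue μ → d μ = 0 ∨ d μ = 1 := by
    intro μ hμ
    obtain ⟨v, hv, hv0⟩ := hμ.exists_hasEigenvector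
    have h1 := hd μ v hv
    have h2 : Matrix.toLin' e (Matrix.toLin' e v) = Matrix.toLin' e v := by
      rw [← Matrix.toLin'_mul_apply, hee]
    rw [h1, map_smul, h1, smul_smul] at h2
    have h3 : (d μ * d μ - d μ) • v = 0 := by rw [sub_smul, h2, sub_self]
    have h4 := (smul_eq_zero.1 h3).resolve_right hv0
    have h5 : d μ * (d μ - 1) = 0 := by linear_combination h4
    rcases mul_eq_zero.1 h5 with h6 | h6
    · exact Or.inl h6
    · exact Or.inr (by linear_combination h6)
  have hne0 : ∀ μ, f.HasEigenvalue μ → μ ≠ 0 := by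
    intro μ hμ h0
    have h1 := habs μ hμ
    rw [h0, norm_zero] at h1
    exact hr.ne h1
  have hconj : ∀ μ, f.HasEigenvalue μ → f.HasEigenvalue ((starRingEnd ℂ) μ) := by
    intro μ hμ
    obtain ⟨v, hv, hv0⟩ := hμ.exists_hasEigenvector
    have h1 : (fun i => τ (v i)) ∈ f.eigenspace ((starRingEnd ℂ) μ) := by
      rw [heig]
      have h2 := rl_map τ (ratM Φ) v
      rw [hfix, heig.1 hv] at h2
      rw [h2, ← hτ μ hμ]
      ext i
      simp
    refine hval h1 fun h => hv0 ?_
    ext i
    have h2 : τ (v i) = 0 := congrFun h i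
    simpa using h2
  have hnorm : ∀ μ, f.HasEigenvalue μ → μ * (starRingEnd ℂ) μ = ((r ^ 2 : ℝ) : ℂ) := by
    intro μ hμ
    rw [Complex.mul_conj, Complex.normSq_eq_norm_sq, habs μ hμ]
  have hκ : ∀ μ ν, f.HasEigenvalue μ → f.HasEigenvalue ν →
      d μ + d ((starRingEnd ℂ) μ) = d ν + d ((starRingEnd ℂ) ν) := by
    intro μ ν hμ hν
    refine rl_relation hrel hμ (hconj μ hμ) hν (hconj ν hν) (hne0 μ hμ) (hne0 _ (hconj μ hμ))
      (hne0 ν hν) (hne0 _ (hconj ν hν)) ?_
    rw [hnorm μ hμ, hnorm ν hν]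
  -- the sum is one
  have hone : ∀ μ, f.HasEigenvalue μ → d μ + d ((starRingEnd ℂ) μ) = 1 := by
    intro μ hμ
    obtain ⟨v, hv, hv0⟩ := hμ.exists_hasEigenvector
    have hnonempty : Nonempty ι := by
      by_contra hem
      rw [not_nonempty_iff] at hem
      exact hv0 (Subsingleton.elim _ _)
    have hcard : (Fintype.card ι : ℂ) ≠ 0 := by
      rw [Nat.cast_ne_zero]
      exact Fintype.card_ne_zero
    rcases hd01 μ hμ with h1 | h1 <;> rcases hd01 _ (hconj μ hμ) with h2 | h2
    · exfalso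
      have h3 : Matrix.toLin' e = 0 := by
        refine rl_ext hdiag fun ν w hw hw0 => ?_
        have hν := hval hw hw0
        have h4 := hκ ν μ hν hμ
        rw [h1, h2, add_zero] at h4
        rw [hd ν w hw]
        rcases hd01 ν hν with h5 | h5
        · rw [h5, zero_smul, LinearMap.zero_apply]
        · exfalso
          rw [h5] at h4
          rcases hd01 _ (hconj ν hν) with h6 | h6 <;> rw [h6] at h4 <;> norm_num at h4
      have h4 : e = 0 := Matrix.toLin'.injective (by rw [h3, map_zero])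
      rw [h4, Matrix.trace_zero, mul_zero] at htr
      exact hcard htr.symm
    · rw [h1, h2, zero_add]
    · rw [h1, h2, add_zero]
    · exfalso
      have h3 : Matrix.toLin' e = LinearMap.id := by
        refine rl_ext hdiag fun ν w hw hw0 => ?_
        have hν := hval hw hw0
        have h4 := hκ ν μ hν hμ
        rw [h1, h2] at h4
        rw [hd ν w hw]
        rcases hd01 ν hν with h5 | h5
        · exfalso
          rw [h5] at h4
          rcases hd01 _ (hconj ν hν) with h6 | h6 <;> rw [h6] at h4 <;> norm_num at h4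
        · rw [h5, one_smul, LinearMap.id_apply]
      have h4 : e = 1 := Matrix.toLin'.injective (by rw [h3, Matrix.toLin'_one])
      rw [h4, Matrix.trace_one] at htr
      apply hcard
      linear_combination htr
  -- the end
  have hfin : Matrix.toLin' (e.map τ) = Matrix.toLin' (1 - e) := by
    refine rl_ext hdiag fun μ v hv hv0 => ?_
    set w : ι → ℂ := fun i => τ.symm (v i) with hw
    have hvw : v = fun i => τ (w i) := by
      ext i
      simp [hw]
    have hwe : w ∈ f.eigenspace (τ.symm μ) := by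
      rw [heig]
      have h2 := rl_map τ.symm (ratM Φ) v
      rw [hfix', heig.1 hv] at h2
      rw [hw, h2]
      ext i
      simp
    have hw0 : w ≠ 0 := by
      intro h
      apply hv0
      rw [hvw, h]
      ext i
      simp
    set ν := τ.symm μ with hν
    have hνe : f.HasEigenvalue ν := hval hwe hw0
    have hμν : (starRingEnd ℂ) ν = μ := by
      rw [← hτ ν hνe, hν, RingEquiv.apply_symm_apply]
    have h1 : (e.map τ).mulVec v = τ (d ν) • v := by
      have h2 := rl_map τ e w
      have h3 := hd ν w hwe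
      rw [Matrix.toLin'_apply] at h3
      rw [← hvw, h3] at h2
      rw [h2, hvw]
      ext i
      simp
    have h4 : τ (d ν) = d ν := by
      rcases hd01 ν hνe with h5 | h5 <;> rw [h5] <;> simp
    have h5 := hone ν hνe
    rw [hμν] at h5
    have h6 := hd μ v hv
    rw [Matrix.toLin'_apply] at h6
    rw [Matrix.toLin'_apply, Matrix.toLin'_apply, h1, h4, Matrix.sub_mulVec, Matrix.one_mulVec, h6]
    have h7 : d ν = 1 - d μ := by linear_combination h5
    rw [h7, sub_smul, one_smul]
  exact Matrix.toLin'.injective hfin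

end Pool.Agent.FQT
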