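import Pool.Agent.FQT.Trans
import Pool.Agent.FQT.RealT
import Pool.Agent.FQT.ConjW

/-!
# The operators induced on the irreducible subspaces
-/

set_option autoImplicit false
set_option linter.unusedSectionVars false

namespace Pool.Agent.FQT

open Module
open Pool.Agent.CoprimeSig (ratM HS endo mem_endo Cartan)
open Pool.Agent.FQA (TD Cn)
open Pool.Agent.NumRank (Lv)
open Pool.Agent.PrimePow.CC (Rf Rt Lat)
open Pool.Agent.FQ (expG)

variable {ι : Type} [Fintype ι] [DecidableEq ι] {E : Type} [Field E]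
  {R : E →+* Matrix ι ι ℚ} {Φ : Matrix ι ι ℚ} {σ : E →+* ℂ} {n : ℕ}
  {g : Submodule ℂ (Matrix ι ι ℂ)} {ψ : Matrix ι ι ℂ} {W : Submodule ℂ (ι → ℂ)}
  {p : (ι → ℂ) →ₗ[ℂ] W} {v : Basis (Om R Φ σ) ℂ W}

/-- `φ` is an alternating nondegenerate form on `W` for which the elements of `g` have the same
multipliers as for `ψ`. -/
structure IsForm (g : Submodule ℂ (Matrix ι ι ℂ)) (ψ : Matrix ι ι ℂ) (p : (ι → ℂ) →ₗ[ℂ] W)
    (φ : W →ₗ[ℂ] W →ₗ[ℂ] ℂ) : Prop where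
  alt : ∀ x, φ x x = 0
  nd : ∀ x, (∀ y, φ x y = 0) → x = 0
  mult : ∀ x ∈ g, ∀ κ : ℂ, x.transpose * ψ + ψ * x = κ • ψ →
    ∀ u w, φ (rm p x u) w + φ u (rm p x w) = κ * φ u w

theorem exists_form (M : Mono R Φ n g ψ) (hW : Irr g W) (P : Prj g W p) :
    ∃ φ, IsForm g ψ p φ := by
  obtain ⟨φ, h1, h2, h3⟩ := M.symp W hW
  refine ⟨φ.compl₁₂ W.subtype W.subtype, fun x => h1 x x.2, fun x hx => ?_, ?_⟩
  · exact Subtype.ext (h2 x x.2 fun y hy => hx ⟨y, hy⟩)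
  · intro x hx κ hκ u w
    have h4 := h3 x hx κ hκ u u.2 w w.2
    change φ (rm p x u : ι → ℂ) w + φ u (rm p x w : ι → ℂ) = κ * φ u w
    rw [rm_apply P (hW.1 x hx), rm_apply P (hW.1 x hx)]
    exact h4

/-- The elements of `res p g` are similitudes. -/
theorem IsForm.sim {φ : W →ₗ[ℂ] W →ₗ[ℂ] ℂ} (hφ : IsForm g ψ p φ) (M : Mono R Φ n g ψ) :
    ∀ x ∈ res p g, ∃ κ : ℂ, ∀ u w, φ (x u) w + φ u (x w) = κ * φ u w := by
  intro y hy
  obtain ⟨x, hx, rfl⟩ := mem_res.1 hy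
  obtain ⟨κ, hκ⟩ := M.sim x hx
  exact ⟨κ, hφ.mult x hx κ hκ⟩

/-- The operators induced on `W` are all similitudes of an alternating form. -/
def FullW (g : Submodule ℂ (Matrix ι ι ℂ)) (ψ : Matrix ι ι ℂ) (p : (ι → ℂ) →ₗ[ℂ] W) : Prop :=
  ∃ φ, IsForm g ψ p φ ∧ ∀ D : End ℂ W, (∀ u w, φ (D u) w + φ u (D w) = 0) → D ∈ res p g

/-- The multiplier is determined by the trace. -/
theorem mult_of_trace [Nonempty ι] (M : Mono R Φ n g ψ) {e : Matrix ι ι ℂ} (he : e ∈ g)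
    (htr : 2 * e.trace = Fintype.card ι) : e.transpose * ψ + ψ * e = ψ := by
  obtain ⟨κ, hκ⟩ := M.sim e he
  have h1 := trace_mult M.unit hκ
  rw [htr] at h1
  have h2 : ((Fintype.card ι : ℕ) : ℂ) ≠ 0 := by
    rw [Nat.cast_ne_zero]
    exact Fintype.card_ne_zero
  have h3 : κ = 1 := by
    have h4 : (κ - 1) * (Fintype.card ι : ℂ) = 0 := by linear_combination -h1
    rcases mul_eq_zero.1 h4 with h5 | h5
    · exact sub_eq_zero.1 h5
    · exact absurd h5 h2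
  rw [hκ, h3, one_smul]

theorem trace_of_mult [Nonempty ι] (M : Mono R Φ n g ψ) {e : Matrix ι ι ℂ}
    (h : e.transpose * ψ + ψ * e = ψ) : 2 * e.trace = Fintype.card ι := by
  have h1 := trace_mult (κ := 1) M.unit (by rw [one_smul]; exact h)
  rwa [one_mul] at h1

/-- An idempotent of multiplier one in the torus is not a scalar on the eigenspaces. -/
theorem ns_of_mult [NumberField E] [Nonempty ι] (M : Mono R Φ n g ψ) (H : IsFrob R Φ)
    (hI : Idem Φ) {e : Matrix ι ι ℂ} (he : e ∈ tor Φ) (hee : e * e = e)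
    (hmul : e.transpose * ψ + ψ * e = ψ) : Ns R Φ e := by
  intro σ
  obtain ⟨W, p, v, F⟩ := exists_frame M H hI σ
  obtain ⟨φ, hφ⟩ := exists_form M F.irr F.prj
  obtain ⟨-, -, hval⟩ := rm_val F M he hee
  have hm := hφ.mult e (M.le he) 1 (by rw [one_smul]; exact hmul)
  have hnt : Nontrivial W := F.nontrivial
  obtain ⟨x, hx⟩ := exists_ne (0 : W)
  obtain ⟨y, hxy⟩ : ∃ y, φ x y ≠ 0 := by
    by_contra hcon
    push Not at hcon
    exact hx (hφ.nd x hcon)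
  have key : ∀ c : ℚ, (∀ μ : Om R Φ σ, ev Φ e μ = c) → rm p e = (c : ℂ) • 1 := by
    intro c hc
    refine v.ext fun μ => ?_
    rw [hval μ, rs_apply, hc μ, LinearMap.smul_apply, Module.End.one_apply]
  have h0 : ¬ ∀ μ : Om R Φ σ, ev Φ e μ = 1 := by
    intro h
    have h1 := hm x y
    rw [key 1 h, Rat.cast_one, one_smul, Module.End.one_apply, Module.End.one_apply, one_mul] at h1
    exact hxy (by linear_combination h1)
  have h1 : ¬ ∀ μ : Om R Φ σ, ev Φ e μ = 0 := by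
    intro h
    have h1 := hm x y
    rw [key 0 h, Rat.cast_zero, zero_smul, LinearMap.zero_apply, LinearMap.zero_apply, map_zero,
      map_zero, LinearMap.zero_apply, add_zero, one_mul] at h1
    exact hxy h1.symm
  push Not at h0 h1
  obtain ⟨μ, hμ⟩ := h0
  obtain ⟨ν, hν⟩ := h1
  exact ⟨μ, μ.2, ν, ν.2, (ev_or Φ e μ).resolve_right hμ, (ev_or Φ e ν).resolve_left hν⟩

/-- The idempotents of the orbit. -/
theorem orbit_mem (hΦ : ⨆ μ, Module.End.eigenspace (Matrix.toLin' (ratM Φ)) μ = ⊤)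
    {e x : Matrix ι ι ℂ} (hee : e * e = e) (hx : x ∈ orbit Φ g e) :
    x ∈ tor Φ ∧ x * x = x ∧ (2 * e.trace = Fintype.card ι → 2 * x.trace = Fintype.card ι) := by
  obtain ⟨e', he', ⟨u, -, hu⟩, γ, rfl⟩ := hx
  have h1 : e' * e' = e' := by
    rw [hu]
    have h2 : ((u⁻¹ : (Matrix ι ι ℂ)ˣ) : Matrix ι ι ℂ) * (u : Matrix ι ι ℂ) = 1 := Units.inv_mul u
    calc (u : Matrix ι ι ℂ) * e * ((u⁻¹ : (Matrix ι ι ℂ)ˣ) : Matrix ι ι ℂ) *
          ((u : Matrix ι ι ℂ) * e * ((u⁻¹ : (Matrix ι ι ℂ)ˣ) : Matrix ι ι ℂ))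
        = (u : Matrix ι ι ℂ) * e * (((u⁻¹ : (Matrix ι ι ℂ)ˣ) : Matrix ι ι ℂ) *
          (u : Matrix ι ι ℂ)) * e * ((u⁻¹ : (Matrix ι ι ℂ)ˣ) : Matrix ι ι ℂ) := by noncomm_ring
      _ = (u : Matrix ι ι ℂ) * (e * e) * ((u⁻¹ : (Matrix ι ι ℂ)ˣ) : Matrix ι ι ℂ) := by
          rw [h2, mul_one]
          noncomm_ring
      _ = _ := by rw [hee]
  have hmap : ∀ A B : Matrix ι ι ℂ, (A * B).map γ = A.map γ * B.map γ := fun A B =>
    Matrix.map_mul (f := (γ : ℂ →+* ℂ))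
  refine ⟨map_mem_tor he' γ hΦ, by rw [← hmap, h1], fun htr => ?_⟩
  have h2 : e'.trace = e.trace := by
    rw [hu, Matrix.trace_mul_comm, ← mul_assoc, Units.inv_mul, one_mul]
  have h3 : (e'.map γ).trace = γ e'.trace := by
    rw [Matrix.trace, Matrix.trace, map_sum]
    rfl
  rw [h3, h2]
  have h4 := congrArg γ htr
  rw [map_mul, map_natCast] at h4
  have h5 : γ 2 = 2 := by
    have := map_natCast γ 2
    exact_mod_cast this
  rwa [h5] at h4

/-- The torus is spanned by idempotents. -/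
theorem idem_of_span (hΦ : ⨆ μ, Module.End.eigenspace (Matrix.toLin' (ratM Φ)) μ = ⊤)
    {e : Matrix ι ι ℂ} (hee : e * e = e) (h : tor Φ ≤ Submodule.span ℂ (orbit Φ g e)) :
    Idem Φ := by
  refine h.trans (Submodule.span_mono fun x hx => ?_)
  obtain ⟨h1, h2, -⟩ := orbit_mem hΦ hee hx
  exact ⟨h1, h2⟩

end Pool.Agent.FQT
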