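import Pool.Agent.FQT.Full
import Pool.Agent.FQA.Full

/-!
# The operators induced on the irreducible subspaces: the theorem
-/

set_option autoImplicit false
set_option linter.unusedSectionVars false

namespace Pool.Agent.FQT

open Module
open Pool.Agent.CoprimeSig (ratM HS endo mem_endo Cartan)
open Pool.Agent.FQA (TD Cn)
open Pool.Agent.NumRank (Lv)
open Pool.Agent.PrimePow.CC (Rf Rt Lat)
open Pool.Agent.FQ (expG)

variable {ι : Type} [Fintype ι] [DecidableEq ι] {E : Type} [Field E]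
  {R : E →+* Matrix ι ι ℚ} {Φ : Matrix ι ι ℚ} {σ : E →+* ℂ} {n : ℕ}
  {g : Submodule ℂ (Matrix ι ι ℂ)} {ψ : Matrix ι ι ℂ} {W : Submodule ℂ (ι → ℂ)}
  {p : (ι → ℂ) →ₗ[ℂ] W} {v : Basis (Om R Φ σ) ℂ W}

/-- The induced idempotent is not trivial. -/
theorem rm_ne (F : Frame R Φ g σ W p v) (M : Mono R Φ n g ψ) {e : Matrix ι ι ℂ} (he : e ∈ tor Φ)
    (hee : e * e = e) (hns : Ns R Φ e) : rm p e ≠ 0 ∧ rm p e ≠ 1 := by
  obtain ⟨-, -, hval⟩ := rm_val F M he hee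
  obtain ⟨μ, hμ, ν, hν, h0, h1⟩ := hns σ
  constructor
  · intro h
    have h2 := hval ⟨ν, hν⟩
    rw [h, LinearMap.zero_apply, rs_apply, h1, Rat.cast_one, one_smul] at h2
    exact v.ne_zero _ h2.symm
  · intro h
    have h2 := hval ⟨μ, hμ⟩
    rw [h, Module.End.one_apply, rs_apply, h0, Rat.cast_zero, zero_smul] at h2
    exact v.ne_zero _ h2

theorem cn_frame (M : Mono R Φ n g ψ) (F : Frame R Φ g σ W p v)
    (hcn : ∀ h h', Rt (Ls R Φ σ) h → Rt (Ls R Φ σ) h' → Cn (Ls R Φ σ) h h') :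
    ∀ h h', Rt (Lv (res p (tor Φ)) v) h → Rt (Lv (res p (tor Φ)) v) h' →
      Cn (Lv (res p (tor Φ)) v) h h' := by
  rw [F.lv M]
  exact hcn

/-- An idempotent conjugate to its complement. -/
theorem full_conj (M : Mono R Φ n g ψ) (H : IsFrob R Φ) (hI : Idem Φ) (F : Frame R Φ g σ W p v)
    (hcn : ∀ h h', Rt (Ls R Φ σ) h → Rt (Ls R Φ σ) h' → Cn (Ls R Φ σ) h h')
    (hn : ∀ m : ℕ, 3 ≤ m → n ≠ 2 ^ m) {e : Matrix ι ι ℂ} (he : e ∈ tor Φ) (hee : e * e = e)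
    (hmul : e.transpose * ψ + ψ * e = ψ) {u : (Matrix ι ι ℂ)ˣ}
    (hu : u ∈ expG ℂ g)
    (hue : 1 - e = (u : Matrix ι ι ℂ) * e * ((u⁻¹ : (Matrix ι ι ℂ)ˣ) : Matrix ι ι ℂ)) :
    FullW g ψ p := by
  obtain ⟨φ, hφ⟩ := exists_form M F.irr F.prj
  obtain ⟨u', hu', hu2⟩ := exp_res F.prj F.irr.1 hu
  have hnt : Nontrivial W := F.nontrivial
  have T := td M H hI F.irr F.prj
  obtain ⟨h3, h4, -⟩ := rm_val F M he hee
  refine ⟨φ, hφ, fun D hD => ?_⟩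
  refine T.full_of_conj hφ.alt hφ.nd (hφ.sim M) v (F.hv M) (cn_frame M F hcn) ?_ h3 h4 ?_ hu' ?_
    ⟨0, fun a b => by rw [hD, zero_mul]⟩
  · intro m hm h
    rw [M.dim W F.irr] at h
    exact hn m hm h
  · have h1 := hφ.mult e (M.le he) 1 (by rw [one_smul]; exact hmul)
    simpa using h1
  · rw [← hu2 e (M.le he), ← hue, rm_sub, rm_one F.prj]

/-- Another Lie algebra with the same torus. -/
theorem full_spread (M : Mono R Φ n g ψ) (H : IsFrob R Φ) (hI : Idem Φ)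
    (F : Frame R Φ g σ W p v)
    (hcn : ∀ h h', Rt (Ls R Φ σ) h → Rt (Ls R Φ σ) h' → Cn (Ls R Φ σ) h h')
    (hn : ∀ m : ℕ, 3 ≤ m → n ≠ 2 ^ m) {e : Matrix ι ι ℂ} (he : e ∈ tor Φ) (hee : e * e = e)
    (hmul : e.transpose * ψ + ψ * e = ψ)
    {g₁ : Submodule ℂ (Matrix ι ι ℂ)} {ψ₁ : Matrix ι ι ℂ} {W₁ : Submodule ℂ (ι → ℂ)}
    {p₁ : (ι → ℂ) →ₗ[ℂ] W₁} {v₁ : Basis (Om R Φ σ) ℂ W₁} (M₁ : Mono R Φ n g₁ ψ₁)
    (F₁ : Frame R Φ g₁ σ W₁ p₁ v₁) (hfull : FullW g₁ ψ₁ p₁) : FullW g ψ p := by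
  obtain ⟨φ, hφ⟩ := exists_form M F.irr F.prj
  obtain ⟨φ₁, hφ₁, hD₁⟩ := hfull
  have hnt : Nontrivial W := F.nontrivial
  have hnt₁ : Nontrivial W₁ := F₁.nontrivial
  have T := td M H hI F.irr F.prj
  have T₁ := td M₁ H hI F₁.irr F₁.prj
  obtain ⟨h3, h4, -⟩ := rm_val F M he hee
  refine ⟨φ, hφ, fun D hD => ?_⟩
  refine T.spread hφ.alt hφ.nd (hφ.sim M) v (F.hv M) (cn_frame M F hcn) ?_ h3 h4 ?_
    T₁ v₁ (F₁.hv M₁) (by rw [F.lv M, F₁.lv M₁]) hφ₁.alt hφ₁.nd (hφ₁.sim M₁) ?_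
    ⟨0, fun a b => by rw [hD, zero_mul]⟩
  · intro m hm h
    rw [M.dim W F.irr] at h
    exact hn m hm h
  · have h1 := hφ.mult e (M.le he) 1 (by rw [one_smul]; exact hmul)
    simpa using h1
  · intro D hD
    exact T₁.sim_of_skew hD₁ hD

theorem isAlgebraic_eig {μ : ℂ} (hμ : Module.End.HasEigenvalue (Matrix.toLin' (ratM Φ)) μ) :
    IsAlgebraic ℚ μ := by
  have h1 : (Matrix.toLin' (ratM Φ)).charpoly.IsRoot μ :=
    (Module.End.hasEigenvalue_iff_isRoot_charpoly _ _).1 hμ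
  have h2 : (Matrix.toLin' (ratM Φ)).charpoly = Φ.charpoly.map (algebraMap ℚ ℂ) := by
    rw [Matrix.charpoly_toLin', ← Matrix.charpoly_map]
    rfl
  refine ⟨Φ.charpoly, Φ.charpoly_monic.ne_zero, ?_⟩
  rw [h2, Polynomial.IsRoot, Polynomial.eval_map_algebraMap] at h1
  exact h1

/-- **All symplectic operators are induced on all irreducible subspaces.** -/
theorem full_all [NumberField E] [Nonempty ι] (H : IsFrob R Φ)
    (hHT : ∀ (γ : ℂ ≃+* ℂ) (S : Finset ℂ), (∀ x ∈ S, IsAlgebraic ℚ x) →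
      ∃ τ : ℂ ≃+* ℂ, (∀ x ∈ S, τ x = γ x) ∧ ∃ (g : Submodule ℂ (Matrix ι ι ℂ))
        (ψ e : Matrix ι ι ℂ), Mono R Φ n g ψ ∧ Coch Φ g ψ τ e)
    {τ₀ : ℂ ≃+* ℂ} {g₀ : Submodule ℂ (Matrix ι ι ℂ)} {ψ₀ e₀ : Matrix ι ι ℂ}
    (M₀ : Mono R Φ n g₀ ψ₀) (C₀ : Coch Φ g₀ ψ₀ τ₀ e₀)
    (hcyc : ∀ σ σ' : E →+* ℂ, ∃ k : ℕ, ∀ a, σ' a = (τ₀ ^[k]) (σ a))
    (hspan : tor Φ ≤ Submodule.span ℂ (orbit Φ g₀ e₀))
    (hn : ∀ m : ℕ, 3 ≤ m → n ≠ 2 ^ m) (M : Mono R Φ n g ψ) (F : Frame R Φ g σ W p v) :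
    FullW g ψ p := by
  have hI : Idem Φ := idem_of_span H.diag C₀.idem hspan
  have hcn := all_cn H hI hHT M₀ C₀ hcyc hspan
    (fun g ψ e M he hee hmul => ns_of_mult M H hI he hee hmul)
  have hfin := Module.End.finite_hasEigenvalue (Matrix.toLin' (ratM Φ))
  obtain ⟨τ, hτ, g₁, ψ₁, e₁, M₁, C₁⟩ := hHT (starRingAut (R := ℂ)) hfin.toFinset
    (fun x hx => isAlgebraic_eig ((Set.Finite.mem_toFinset hfin).1 hx))
  have htr := trace_of_mult M₁ C₁.mult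
  have h1 : e₁.map τ = 1 - e₁ := map_eq_one_sub H C₁.mem C₁.idem htr fun μ hμ =>
    hτ μ ((Set.Finite.mem_toFinset hfin).2 hμ)
  obtain ⟨u, hu, hue⟩ := C₁.conj
  obtain ⟨W₁, p₁, v₁, F₁⟩ := exists_frame M₁ H hI σ
  have hfull₁ := full_conj M₁ H hI F₁ (hcn σ) hn C₁.mem C₁.idem C₁.mult hu
    (by rw [← h1, hue])
  exact full_spread M H hI F (hcn σ) hn C₁.mem C₁.idem (mult_of_trace M (M.le C₁.mem) htr)
    M₁ F₁ hfull₁

end Pool.Agent.FQT
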