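import Pool.Agent.FQT.Final

/-!
# The main theorem
-/

set_option autoImplicit false
set_option linter.unusedSectionVars false

namespace Pool.Agent.FQT

open Module
open Pool.Agent.CoprimeSig (ratM HS)

variable {ι : Type} [Fintype ι] [DecidableEq ι] {E : Type} [Field E]

/-- The main theorem. -/
theorem main [NumberField E] {R : E →+* Matrix ι ι ℚ} {Φ : Matrix ι ι ℚ} (H : IsFrob R Φ) {n : ℕ}
    (hHT : ∀ (γ : ℂ ≃+* ℂ) (S : Finset ℂ), (∀ x ∈ S, IsAlgebraic ℚ x) →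
      ∃ τ : ℂ ≃+* ℂ, (∀ x ∈ S, τ x = γ x) ∧ ∃ (g : Submodule ℂ (Matrix ι ι ℂ))
        (ψ e : Matrix ι ι ℂ), Mono R Φ n g ψ ∧ Coch Φ g ψ τ e)
    (hNW : ∃ (τ : ℂ ≃+* ℂ) (g : Submodule ℂ (Matrix ι ι ℂ)) (ψ e : Matrix ι ι ℂ),
      Mono R Φ n g ψ ∧ Coch Φ g ψ τ e ∧
      (∀ σ σ' : E →+* ℂ, ∃ k : ℕ, ∀ a, σ' a = (τ ^[k]) (σ a)) ∧
      tor Φ ≤ Submodule.span ℂ (orbit Φ g e))
    (hn : ∀ m : ℕ, 3 ≤ m → n ≠ 2 ^ m) {g : Submodule ℂ (Matrix ι ι ℂ)} {ψ : Matrix ι ι ℂ}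
    (M : Mono R Φ n g ψ) (N : Matrix ι ι ℂ) :
    N ∈ g ↔ (∃ m : ℂ, N.transpose * ψ + ψ * N = m • ψ) ∧
      ∀ Z : Matrix ι ι ℂ, (∀ x ∈ g, x * Z = Z * x) → N * Z = Z * N := by
  rcases isEmpty_or_nonempty ι with hι | hι
  · have h1 : N = 0 := Matrix.ext fun i => (hι.false i).elim
    rw [h1]
    refine ⟨fun h => ⟨M.sim _ h, fun Z hZ => hZ _ h⟩, fun _ => g.zero_mem⟩
  obtain ⟨τ₀, g₀, ψ₀, e₀, M₀, C₀, hcyc, hspan⟩ := hNW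
  have hI : Idem Φ := idem_of_span H.diag C₀.idem hspan
  have htor : tor Φ ≤ Submodule.span ℂ {e : Matrix ι ι ℂ | e ∈ tor Φ ∧ e * e = e ∧
      2 * e.trace = Fintype.card ι} := by
    refine hspan.trans (Submodule.span_mono fun x hx => ?_)
    obtain ⟨h1, h2, h3⟩ := orbit_mem H.diag C₀.idem hx
    exact ⟨h1, h2, h3 (trace_of_mult M₀ C₀.mult)⟩
  exact mem_iff M (span_idp M H htor) H hI
    (fun σ W p v F => full_all H hHT M₀ C₀ hcyc hspan hn M F) N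

end Pool.Agent.FQT
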