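import Pool.Agent.FQT.Defs
import Pool.Agent.EllSig.Frob

/-!
# The eigenvalues of the Frobenius element and the lattices of its torus

`Om R Φ σ` is the finite set of the eigenvalues of `Φ` on the eigenspace `HS R σ`, `Ls R Φ σ` the
lattice of the integral functions on it given by the elements of the Lie algebra of the Frobenius
torus.
-/

set_option autoImplicit false
set_option linter.unusedSectionVars false

namespace Pool.Agent.FQT

open Module
open Pool.Agent.CoprimeSig (ratM HS)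
open Pool.Agent.OneFrob (frobTorus)

variable {ι : Type} [Fintype ι] [DecidableEq ι] {E : Type} [Field E]

/-- The eigenvalues of `Φ` on the eigenspace for `σ`. -/
def Om (R : E →+* Matrix ι ι ℚ) (Φ : Matrix ι ι ℚ) (σ : E →+* ℂ) : Set ℂ :=
  {μ | ∃ w ∈ HS R σ, w ≠ 0 ∧ (ratM Φ).mulVec w = μ • w}

variable {R : E →+* Matrix ι ι ℚ} {Φ : Matrix ι ι ℚ} {σ : E →+* ℂ}

theorem hasEigenvalue_of_mem {μ : ℂ} (hμ : μ ∈ Om R Φ σ) :
    Module.End.HasEigenvalue (Matrix.toLin' (ratM Φ)) μ := by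
  obtain ⟨w, -, hw0, hw⟩ := hμ
  exact Module.End.hasEigenvalue_of_hasEigenvector (x := w)
    ⟨Module.End.mem_eigenspace_iff.2 (by rw [Matrix.toLin'_apply, hw]), hw0⟩

theorem finite_Om (R : E →+* Matrix ι ι ℚ) (Φ : Matrix ι ι ℚ) (σ : E →+* ℂ) :
    (Om R Φ σ).Finite :=
  (Module.End.finite_hasEigenvalue (Matrix.toLin' (ratM Φ))).subset
    fun _ hμ => hasEigenvalue_of_mem hμ

noncomputable instance : Fintype (Om R Φ σ) := (finite_Om R Φ σ).fintype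

/-- `x` acts on the eigenspaces of `Φ` in the eigenspace for `σ` as the scalars `f μ`. -/
def Vals (R : E →+* Matrix ι ι ℚ) (Φ : Matrix ι ι ℚ) (σ : E →+* ℂ) (x : Matrix ι ι ℂ)
    (f : Om R Φ σ → ℚ) : Prop :=
  ∀ μ : Om R Φ σ, ∀ w ∈ HS R σ, (ratM Φ).mulVec w = (μ : ℂ) • w → x.mulVec w = (f μ : ℂ) • w

/-- The lattice of the integral functions on `Om R Φ σ` given by the elements of the Lie algebra of
the Frobenius torus. -/
def Ls (R : E →+* Matrix ι ι ℚ) (Φ : Matrix ι ι ℚ) (σ : E →+* ℂ) :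
    AddSubgroup (Om R Φ σ → ℚ) where
  carrier := {f | (∀ ω, ∃ z : ℤ, f ω = z) ∧ ∃ x ∈ tor Φ, Vals R Φ σ x f}
  add_mem' := by
    rintro f f' ⟨h1, x, hx, h2⟩ ⟨h3, y, hy, h4⟩
    refine ⟨fun ω => ?_, x + y, (tor Φ).add_mem hx hy, fun μ w hw hμ => ?_⟩
    · obtain ⟨a, ha⟩ := h1 ω
      obtain ⟨b, hb⟩ := h3 ω
      exact ⟨a + b, by rw [Pi.add_apply, ha, hb, Int.cast_add]⟩
    · rw [Matrix.add_mulVec, h2 μ w hw hμ, h4 μ w hw hμ, Pi.add_apply, Rat.cast_add, add_smul]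
  zero_mem' := ⟨fun ω => ⟨0, by simp⟩, 0, (tor Φ).zero_mem, fun μ w hw hμ => by simp⟩
  neg_mem' := by
    rintro f ⟨h1, x, hx, h2⟩
    refine ⟨fun ω => ?_, -x, (tor Φ).neg_mem hx, fun μ w hw hμ => ?_⟩
    · obtain ⟨a, ha⟩ := h1 ω
      exact ⟨-a, by rw [Pi.neg_apply, ha, Int.cast_neg]⟩
    · rw [Matrix.neg_mulVec, h2 μ w hw hμ, Pi.neg_apply, Rat.cast_neg, neg_smul]

theorem mem_Ls {f : Om R Φ σ → ℚ} :
    f ∈ Ls R Φ σ ↔ (∀ ω, ∃ z : ℤ, f ω = z) ∧ ∃ x ∈ tor Φ, Vals R Φ σ x f := Iff.rfl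

/-- An element of the Lie algebra of the torus acts on an eigenspace of `Φ` as a scalar. -/
theorem exists_scalar {x : Matrix ι ι ℂ} (hx : x ∈ tor Φ) :
    ∃ d : ℂ → ℂ, ∀ (μ : ℂ) (v : ι → ℂ), (ratM Φ).mulVec v = μ • v → x.mulVec v = d μ • v := by
  obtain ⟨d, hd, -⟩ := hx
  refine ⟨d, fun μ v hv => ?_⟩
  have h1 := hd μ v (Module.End.mem_eigenspace_iff.2 (by rw [Matrix.toLin'_apply, hv]))
  rwa [Matrix.toLin'_apply] at h1

open Classical in
/-- The eigenvalue of the idempotent `e` on the eigenspace of `Φ` for `μ`. -/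
noncomputable def ev (Φ : Matrix ι ι ℚ) (e : Matrix ι ι ℂ) (μ : ℂ) : ℚ :=
  if ∃ v : ι → ℂ, v ≠ 0 ∧ (ratM Φ).mulVec v = μ • v ∧ e.mulVec v = v then 1 else 0

theorem ev_or (Φ : Matrix ι ι ℚ) (e : Matrix ι ι ℂ) (μ : ℂ) : ev Φ e μ = 0 ∨ ev Φ e μ = 1 := by
  unfold ev
  split_ifs
  · exact Or.inr rfl
  · exact Or.inl rfl

/-- The idempotent `e` acts on the eigenspace of `Φ` for `μ` as the scalar `ev Φ e μ`. -/
theorem ev_apply {e : Matrix ι ι ℂ} (he : e ∈ tor Φ) (hee : e * e = e) {μ : ℂ} {v : ι → ℂ}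
    (hv : (ratM Φ).mulVec v = μ • v) : e.mulVec v = (ev Φ e μ : ℂ) • v := by
  obtain ⟨d, hd⟩ := exists_scalar he
  have h1 := hd μ
  by_cases hv0 : v = 0
  · rw [hv0, Matrix.mulVec_zero, smul_zero]
  have h2 : d μ = 0 ∨ d μ = 1 := by
    have h3 : (d μ * d μ - d μ) • v = 0 := by
      have h4 : (e * e).mulVec v = e.mulVec v := by rw [hee]
      rw [← Matrix.mulVec_mulVec, h1 v hv, Matrix.mulVec_smul, h1 v hv, smul_smul] at h4
      rw [sub_smul, h4, sub_self]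
    rcases smul_eq_zero.1 h3 with h5 | h5
    · have h6 : d μ * (d μ - 1) = 0 := by rw [mul_sub, mul_one, h5]
      rcases mul_eq_zero.1 h6 with h7 | h7
      · exact Or.inl h7
      · exact Or.inr (sub_eq_zero.1 h7)
    · exact absurd h5 hv0
  rw [h1 v hv]
  congr 1
  unfold ev
  split_ifs with hc
  · obtain ⟨w, hw0, hw, hew⟩ := hc
    rcases h2 with h3 | h3
    · rw [h1 w hw, h3, zero_smul] at hew
      exact absurd hew.symm hw0
    · rw [h3, Rat.cast_one]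
  · rcases h2 with h3 | h3
    · rw [h3, Rat.cast_zero]
    · exact absurd ⟨v, hv0, hv, by rw [h1 v hv, h3, one_smul]⟩ hc

/-- The restriction of a function to `Om R Φ σ`. -/
def rs (R : E →+* Matrix ι ι ℚ) (Φ : Matrix ι ι ℚ) (σ : E →+* ℂ) (F : ℂ → ℚ) : Om R Φ σ → ℚ :=
  fun μ => F μ

theorem rs_apply (F : ℂ → ℚ) (μ : Om R Φ σ) : rs R Φ σ F μ = F μ := rfl

theorem vals_ev {e : Matrix ι ι ℂ} (he : e ∈ tor Φ) (hee : e * e = e) :
    Vals R Φ σ e (rs R Φ σ (ev Φ e)) := fun _ _ _ hμ => ev_apply he hee hμ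

theorem ev_mem {e : Matrix ι ι ℂ} (he : e ∈ tor Φ) (hee : e * e = e) :
    rs R Φ σ (ev Φ e) ∈ Ls R Φ σ := by
  refine mem_Ls.2 ⟨fun ω => ?_, e, he, vals_ev he hee⟩
  rcases ev_or Φ e ω with h1 | h1
  · exact ⟨0, by rw [rs_apply, h1, Int.cast_zero]⟩
  · exact ⟨1, by rw [rs_apply, h1, Int.cast_one]⟩

/-- The values of the conjugate idempotent. -/
theorem ev_map (Φ : Matrix ι ι ℚ) (e : Matrix ι ι ℂ) (γ : ℂ ≃+* ℂ) (μ : ℂ) :
    ev Φ (e.map γ) μ = ev Φ e (γ.symm μ) := by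
  have hmv : ∀ (δ : ℂ ≃+* ℂ) (A : Matrix ι ι ℂ) (v : ι → ℂ),
      (A.map δ).mulVec (fun i => δ (v i)) = fun i => δ (A.mulVec v i) := by
    intro δ A v
    funext i
    rw [Matrix.mulVec, Matrix.mulVec, dotProduct, dotProduct, map_sum]
    exact Finset.sum_congr rfl fun j _ => by rw [Matrix.map_apply, map_mul]
  have hrat : ∀ δ : ℂ ≃+* ℂ, (ratM Φ).map δ = ratM Φ := by
    intro δ
    ext i j
    simp [ratM]
  have key : ∀ (δ : ℂ ≃+* ℂ) (A : Matrix ι ι ℂ) (ν : ℂ),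
      (∃ v : ι → ℂ, v ≠ 0 ∧ (ratM Φ).mulVec v = ν • v ∧ A.mulVec v = v) →
      ∃ v : ι → ℂ, v ≠ 0 ∧ (ratM Φ).mulVec v = δ ν • v ∧ (A.map δ).mulVec v = v := by
    rintro δ A ν ⟨v, hv0, hv, hA⟩
    refine ⟨fun i => δ (v i), ?_, ?_, ?_⟩
    · intro h0
      apply hv0
      funext i
      have h1 := congrFun h0 i
      exact (map_eq_zero_iff δ δ.injective).1 h1
    · have h1 := hmv δ (ratM Φ) v
      rw [hrat] at h1
      rw [h1, hv]
      funext i
      simp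
    · rw [hmv, hA]
  have hiff : (∃ v : ι → ℂ, v ≠ 0 ∧ (ratM Φ).mulVec v = μ • v ∧ (e.map γ).mulVec v = v) ↔
      ∃ v : ι → ℂ, v ≠ 0 ∧ (ratM Φ).mulVec v = γ.symm μ • v ∧ e.mulVec v = v := by
    constructor
    · intro h
      have h1 := key γ.symm _ _ h
      have h2 : (e.map γ).map γ.symm = e := by
        ext i j
        simp
      rwa [h2] at h1
    · intro h
      have h1 := key γ _ _ h
      rwa [RingEquiv.apply_symm_apply] at h1
  classical
  unfold ev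
  exact if_congr hiff rfl rfl

/-- The Lie algebra of the torus is stable under automorphisms. -/
theorem map_mem_tor {x : Matrix ι ι ℂ} (hx : x ∈ tor Φ) (γ : ℂ ≃+* ℂ)
    (hΦ : ⨆ μ, Module.End.eigenspace (Matrix.toLin' (ratM Φ)) μ = ⊤) : x.map γ ∈ tor Φ := by
  obtain ⟨t, ht, -, ht2, -⟩ := EllSig.exists_ft Φ hΦ
  exact (ht _).1 (ht2 (γ : ℂ →+* ℂ) x ((ht x).2 hx))

/-- An element of the torus with rational integral values which are given. -/
theorem ext_of_diag (hΦ : ⨆ μ, Module.End.eigenspace (Matrix.toLin' (ratM Φ)) μ = ⊤)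
    {x y : Matrix ι ι ℂ}
    (h : ∀ (μ : ℂ) (v : ι → ℂ), (ratM Φ).mulVec v = μ • v → x.mulVec v = y.mulVec v) : x = y := by
  have h1 : Matrix.toLin' x = Matrix.toLin' y := by
    have h2 : (⊤ : Submodule ℂ (ι → ℂ)) ≤
        LinearMap.eqLocus (Matrix.toLin' x) (Matrix.toLin' y) := by
      rw [← hΦ]
      refine iSup_le fun μ v hv => ?_
      have h3 : (ratM Φ).mulVec v = μ • v := by
        have h4 := Module.End.mem_eigenspace_iff.1 hv
        rwa [Matrix.toLin'_apply] at h4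
      have h5 := h μ v h3
      change Matrix.toLin' x v = Matrix.toLin' y v
      rw [Matrix.toLin'_apply, Matrix.toLin'_apply, h5]
    exact LinearMap.ext fun v => h2 (Submodule.mem_top : v ∈ ⊤)
  exact (Matrix.toLin' (R := ℂ)).injective h1

end Pool.Agent.FQT
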