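import Pool.Agent.FQT.Om
import Pool.Agent.FQA.Iface
import Pool.Agent.TypeIV.Kinds
import Pool.Agent.FQ.Comp

/-!
# The operators induced on an irreducible subspace
-/

set_option autoImplicit false
set_option linter.unusedSectionVars false

namespace Pool.Agent.FQT

open Module
open Pool.Agent.CoprimeSig (ratM HS endo mem_endo)
open Pool.Agent.TypeIV.MX (rst rst_apply rst_mul)

variable {ι : Type} [Fintype ι] [DecidableEq ι] {E : Type} [Field E]
  {R : E →+* Matrix ι ι ℚ} {Φ : Matrix ι ι ℚ} {σ : E →+* ℂ} {n : ℕ}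
  {g : Submodule ℂ (Matrix ι ι ℂ)} {ψ : Matrix ι ι ℂ} {W : Submodule ℂ (ι → ℂ)}

/-- The operators on `W` induced by the elements of `g`, where `p` is a projection onto `W`. -/
noncomputable def res (p : (ι → ℂ) →ₗ[ℂ] W) (g : Submodule ℂ (Matrix ι ι ℂ)) :
    Submodule ℂ (End ℂ W) := (endo g).map (rst p)

/-- `p` is a projection onto `W` which commutes with `g`. -/
structure Prj (g : Submodule ℂ (Matrix ι ι ℂ)) (W : Submodule ℂ (ι → ℂ))
    (p : (ι → ℂ) →ₗ[ℂ] W) : Prop where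
  id : ∀ w : W, p w = w
  eq : ∀ x ∈ g, ∀ v, (p (x.mulVec v) : ι → ℂ) = x.mulVec (p v)

/-- The operator induced by a matrix. -/
noncomputable def rm (p : (ι → ℂ) →ₗ[ℂ] W) (x : Matrix ι ι ℂ) : End ℂ W :=
  rst p (Matrix.toLin' x)

variable {p : (ι → ℂ) →ₗ[ℂ] W}

theorem mem_res {y : End ℂ W} : y ∈ res p g ↔ ∃ x ∈ g, rm p x = y := by
  constructor
  · rintro ⟨_, ⟨x, hx, rfl⟩, rfl⟩
    exact ⟨x, hx, rfl⟩
  · rintro ⟨x, hx, rfl⟩
    exact ⟨Matrix.toLin' x, mem_endo.2 hx, rfl⟩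

theorem rm_mem {x : Matrix ι ι ℂ} (hx : x ∈ g) : rm p x ∈ res p g := mem_res.2 ⟨x, hx, rfl⟩

/-- For the elements of `g` the induced operator is the restriction. -/
theorem rm_apply (P : Prj g W p) {x : Matrix ι ι ℂ} (hx : ∀ w ∈ W, x.mulVec w ∈ W) (w : W) :
    (rm p x w : ι → ℂ) = x.mulVec w := by
  have h1 := rst_apply P.id (x := Matrix.toLin' x) (fun w hw => by
    rw [Matrix.toLin'_apply]
    exact hx w hw) w
  rwa [Matrix.toLin'_apply] at h1

theorem rm_mul (P : Prj g W p) {x y : Matrix ι ι ℂ} (hx : ∀ w ∈ W, x.mulVec w ∈ W)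
    (hy : ∀ w ∈ W, y.mulVec w ∈ W) : rm p (x * y) = rm p x * rm p y := by
  ext w
  have h1 : ∀ w ∈ W, (x * y).mulVec w ∈ W := fun w hw => by
    rw [← Matrix.mulVec_mulVec]
    exact hx _ (hy w hw)
  rw [rm_apply P h1, Module.End.mul_apply, rm_apply P hx, rm_apply P hy, Matrix.mulVec_mulVec]

theorem rm_add (x y : Matrix ι ι ℂ) : rm p (x + y) = rm p x + rm p y := by
  unfold rm
  rw [map_add, map_add]

theorem rm_sub (x y : Matrix ι ι ℂ) : rm p (x - y) = rm p x - rm p y := by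
  unfold rm
  rw [map_sub, map_sub]

theorem rm_smul (c : ℂ) (x : Matrix ι ι ℂ) : rm p (c • x) = c • rm p x := by
  unfold rm
  rw [map_smul, map_smul]

theorem rm_one (P : Prj g W p) : rm p 1 = 1 := by
  ext w
  rw [rm_apply P (fun w hw => by rwa [Matrix.one_mulVec]), Matrix.one_mulVec]
  rfl

/-- `tor Φ` is spanned by its idempotents. -/
def Idem (Φ : Matrix ι ι ℚ) : Prop :=
  tor Φ ≤ Submodule.span ℂ {e : Matrix ι ι ℂ | e ∈ tor Φ ∧ e * e = e}

/-- `W` is an irreducible subspace of the eigenspace for `σ`, with a projection `p` and a basis `v`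
of eigenvectors of `Φ`, indexed by the eigenvalues. -/
structure Frame (R : E →+* Matrix ι ι ℚ) (Φ : Matrix ι ι ℚ) (g : Submodule ℂ (Matrix ι ι ℂ))
    (σ : E →+* ℂ) (W : Submodule ℂ (ι → ℂ)) (p : (ι → ℂ) →ₗ[ℂ] W)
    (v : Basis (Om R Φ σ) ℂ W) : Prop where
  irr : Irr g W
  le : W ≤ HS R σ
  prj : Prj g W p
  bas : ∀ μ, (ratM Φ).mulVec (v μ : ι → ℂ) = (μ : ℂ) • (v μ : ι → ℂ)

end Pool.Agent.FQT
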