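import Pool.Agent.FQT.Api
import Pool.Agent.FQGrp.Fib

/-!
# All roots for an embedding are connected (PACKAGE FT10)

`Ns R Φ e` says that the idempotent `e` of the torus is not a scalar on the eigenspaces.

Proofs. `Ns` is stable under conjugation by automorphisms: `ns_map`; `ev_map` and `mem_Om_cp`: a value
of `ev Φ (e.map γ)` at `γ μ` is `ev Φ e μ`; apply the hypothesis for the embedding `cp γ⁻¹ σ`.

`tch_isCmp`: `tch_eq`, `touch_ex`, `touch_cn` with `u = 1`.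

`tch_conj`: `tch_congr`, `touch_ex` for `e`, `e'` and `touch_cn`.

`MulAction (ℂ ≃+* ℂ) (Prs R Φ)`: `γ • (σ, c) = (cp γ σ, mv γ '' c)` (`isCmp_mv`, `cp_mul`, `mv_mul`), and on
`E →+* ℂ`: `γ • σ = cp γ σ`. (Define the actions as local instances or by hand, `ℂ ≃+* ℂ` is a group:
`RingAut`.)

`trans`: Let `x = (σ, c)` be a pair. Claim: there is `γ` and `σ'` with `x = γ • (σ', tch R Φ σ' (ev Φ e₀))`.
Let `c = cmp R Φ σ F`, `F` a root for `σ`. `rs F` is given by an element `y ∈ tor Φ` (`mem_Ls`, as a root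
is in the lattice: `Rf.mem`); consider the linear functional on `tor Φ`: `z ↦ ∑_{ω ∈ Om R Φ σ} z_ω F(ω)`, where
`z_ω` is the scalar of `z` on the eigenvectors for `ω`; at `y` it is `F ⬝ᵥ F ≠ 0`. As `tor Φ` is in the
span of `orbit Φ g₀ e₀`, there is `z ∈ orbit Φ g₀ e₀` at which it is not zero (if it is zero on all of
them it is zero on the span, hence at `y`. To have a linear functional on all matrices choose for each
`ω` a fixed eigenvector `w_ω ∈ HS R σ` and a coordinate `i_ω` with `w_ω i_ω ≠ 0` and let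
`z_ω = (z.mulVec w_ω) i_ω / w_ω i_ω`). `z = e'.map γ` with `e' = u e₀ u⁻¹ ∈ tor Φ`; `z` is an idempotent in
`tor Φ` (`map_mem_tor`), `ev Φ z = mv γ (ev Φ e')` (`ev_map`) and `rs (ev Φ z) ⬝ᵥ rs F ≠ 0`. So
`F ∈ tch R Φ σ (ev Φ z)`, which is a component, hence it is equal to `c` (a component is determined
by one of its elements: `Cns.symm`, `Cns.trans`). With `σ' = cp γ.symm σ`, `σ = cp γ σ'`:
`c = tch R Φ (cp γ σ') (mv γ (ev Φ e')) = mv γ '' tch R Φ σ' (ev Φ e')` (`tch_mv`)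
`= mv γ '' tch R Φ σ' (ev Φ e₀)` (`tch_conj`). This proves the claim.
Moreover `τ₀ • (σ', tch R Φ σ' (ev Φ e₀)) = (cp τ₀ σ', tch R Φ (cp τ₀ σ') (ev Φ (e₀.map τ₀)))` and the last
set is `tch R Φ (cp τ₀ σ') (ev Φ e₀)` by `tch_conj`, as `e₀.map τ₀` is conjugate to `e₀`. By induction
`τ₀ ^ k • (σ', tch R Φ σ' (ev Φ e₀)) = (cp (τ₀ ^ k) σ', tch R Φ (cp (τ₀ ^ k) σ') (ev Φ e₀))`, so by `hcyc`
all pairs `(σ', tch R Φ σ' (ev Φ e₀))` are in one orbit. So there is one orbit.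

`all_cn`: apply `FQGrp.jordan_fib` to `X = Prs R Φ`, `B = E →+* ℂ`, `π` the first component
(`finite_prs`). The sections: for `γ` let `S` be the finite set of the eigenvalues of `Φ` and of the images
`σ a`, `σ : E →+* ℂ`, `a` in a basis of `E` over `ℚ` (algebraic numbers). `hHT` gives `τ`, which agrees with `γ`
on `S`, and `M`, `C : Coch Φ g ψ τ e`. `s σ = (σ, tch R Φ σ (ev Φ e))`. `γ • s σ = τ • s σ` (the two
automorphisms agree on the image of `σ`, `cp γ σ = cp τ σ`: two ring homomorphisms from `E` which agree on a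
`ℚ`-basis; and `mv γ F = mv τ F` for `F` with support in the eigenvalues: for `ν` an eigenvalue
`γ⁻¹ ν = τ⁻¹ ν`, because `μ = γ⁻¹ ν` is an eigenvalue, so `τ μ = γ μ = ν`; for `ν` not an eigenvalue
`γ⁻¹ ν` and `τ⁻¹ ν` are not eigenvalues, and `F` is zero there, `Rts.supp`), and
`τ • s σ = (cp τ σ, tch R Φ (cp τ σ) (ev Φ (e.map τ))) = (cp τ σ, tch R Φ (cp τ σ) (ev Φ e)) = s (cp τ σ)` by
`tch_mv`, `ev_map`, `tch_conj`. So `π` is injective: for each `σ` there is at most one component. If `F`, `F'`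
are roots for `σ`, then `cmp F = cmp F'`, so they are connected. -/

set_option autoImplicit false
set_option linter.unusedSectionVars false

namespace Pool.Agent.FQT

open Module
open Pool.Agent.CoprimeSig (ratM HS)
open Pool.Agent.FQA (TD Cn)
open Pool.Agent.PrimePow.CC (Rf Rt Lat)
open Pool.Agent.FQ (expG)

variable {ι : Type} [Fintype ι] [DecidableEq ι] {E : Type} [Field E]
  {R : E →+* Matrix ι ι ℚ} {Φ : Matrix ι ι ℚ} {σ : E →+* ℂ} {n : ℕ}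
  {g : Submodule ℂ (Matrix ι ι ℂ)} {ψ : Matrix ι ι ℂ}

/-- The idempotent is not a scalar on the eigenspaces. -/
def Ns (R : E →+* Matrix ι ι ℚ) (Φ : Matrix ι ι ℚ) (e : Matrix ι ι ℂ) : Prop :=
  ∀ σ : E →+* ℂ, ∃ μ ∈ Om R Φ σ, ∃ ν ∈ Om R Φ σ, ev Φ e μ = 0 ∧ ev Φ e ν = 1

theorem ns_map {e : Matrix ι ι ℂ} (he : Ns R Φ e) (γ : ℂ ≃+* ℂ) : Ns R Φ (e.map γ) := by
  intro σ
  obtain ⟨μ, hμ, ν, hν, h0, h1⟩ := he (cp γ.symm σ)
  have h2 : cp γ (cp γ.symm σ) = σ := by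
    ext a
    simp [cp_apply]
  refine ⟨γ μ, ?_, γ ν, ?_, ?_, ?_⟩
  · have h3 := mem_Om_cp γ hμ
    rwa [h2] at h3
  · have h3 := mem_Om_cp γ hν
    rwa [h2] at h3
  · rw [ev_map, RingEquiv.symm_apply_apply, h0]
  · rw [ev_map, RingEquiv.symm_apply_apply, h1]

/-- Conjugates of idempotents are idempotents. -/
private theorem conj_idem {e e' : Matrix ι ι ℂ} (hee : e * e = e) {u : (Matrix ι ι ℂ)ˣ}
    (hue : e' = (u : Matrix ι ι ℂ) * e * ((u⁻¹ : (Matrix ι ι ℂ)ˣ) : Matrix ι ι ℂ)) :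
    e' * e' = e' := by
  have h5 : ((u⁻¹ : (Matrix ι ι ℂ)ˣ) : Matrix ι ι ℂ) * (u : Matrix ι ι ℂ) = 1 := u.inv_mul
  calc e' * e' = (u : Matrix ι ι ℂ) * e *
        (((u⁻¹ : (Matrix ι ι ℂ)ˣ) : Matrix ι ι ℂ) * (u : Matrix ι ι ℂ)) * e *
        ((u⁻¹ : (Matrix ι ι ℂ)ˣ) : Matrix ι ι ℂ) := by rw [hue]; noncomm_ring
    _ = (u : Matrix ι ι ℂ) * (e * e) * ((u⁻¹ : (Matrix ι ι ℂ)ˣ) : Matrix ι ι ℂ) := by
      rw [h5]; noncomm_ring
    _ = e' := by rw [hee, hue]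

theorem tch_isCmp [NumberField E] [Nonempty ι] (M : Mono R Φ n g ψ) (H : IsFrob R Φ)
    (hI : Idem Φ) {e : Matrix ι ι ℂ} (he : e ∈ tor Φ) (hee : e * e = e) (hns : Ns R Φ e)
    (σ : E →+* ℂ) : IsCmp R Φ σ (tch R Φ σ (ev Φ e)) := by
  obtain ⟨μ, hμ, ν, hν, h0, h1⟩ := hns σ
  refine tch_eq (touch_ex M H hI σ he hee hμ hν h0 h1) fun F F' hF h2 hF' h3 => ?_
  exact touch_cn M H hI σ he hee he (u := 1) (one_mem _) (by simp) hF h2 hF' h3

theorem tch_conj [NumberField E] [Nonempty ι] (M : Mono R Φ n g ψ) (H : IsFrob R Φ)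
    (hI : Idem Φ) {e e' : Matrix ι ι ℂ} (he : e ∈ tor Φ) (hee : e * e = e) (hns : Ns R Φ e)
    (he' : e' ∈ tor Φ) (hns' : Ns R Φ e') {u : (Matrix ι ι ℂ)ˣ} (hu : u ∈ expG ℂ g)
    (hue : e' = (u : Matrix ι ι ℂ) * e * ((u⁻¹ : (Matrix ι ι ℂ)ˣ) : Matrix ι ι ℂ))
    (σ : E →+* ℂ) : tch R Φ σ (ev Φ e) = tch R Φ σ (ev Φ e') := by
  have hee' : e' * e' = e' := conj_idem hee hue
  obtain ⟨μ, hμ, ν, hν, h0, h1⟩ := hns σ
  obtain ⟨μ', hμ', ν', hν', h0', h1'⟩ := hns' σ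
  refine tch_congr (touch_ex M H hI σ he hee hμ hν h0 h1)
    (touch_ex M H hI σ he' hee' hμ' hν' h0' h1') fun F F' hF h2 hF' h3 => ?_
  exact touch_cn M H hI σ he hee he' hu hue hF h2 hF' h3

/-- Conjugates of idempotents which are not scalars are not scalars. -/
private theorem ns_conj [NumberField E] [Nonempty ι] (M : Mono R Φ n g ψ) (H : IsFrob R Φ)
    (hI : Idem Φ) {e e' : Matrix ι ι ℂ} (he : e ∈ tor Φ) (hee : e * e = e) (hns : Ns R Φ e)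
    (he' : e' ∈ tor Φ) {u : (Matrix ι ι ℂ)ˣ} (hu : u ∈ expG ℂ g)
    (hue : e' = (u : Matrix ι ι ℂ) * e * ((u⁻¹ : (Matrix ι ι ℂ)ˣ) : Matrix ι ι ℂ)) :
    Ns R Φ e' := by
  intro σ
  obtain ⟨μ, hμ, ν, hν, h0, h1⟩ := hns σ
  obtain ⟨W, p, v, F⟩ := exists_frame M H hI σ
  obtain ⟨-, -, a3⟩ := rm_val F M he hee
  obtain ⟨-, -, b3⟩ := rm_val F M he' (conj_idem hee hue)
  obtain ⟨u', -, hconj⟩ := exp_res F.prj F.irr.1 hu
  have h5 := hconj e (M.le he)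
  rw [← hue] at h5
  -- the idempotent is not a scalar
  have key : ∀ c : ℂ, (∀ ω ∈ Om R Φ σ, (ev Φ e' ω : ℂ) = c) → False := by
    intro c hc
    have h6 : rm p e' = c • (1 : End ℂ W) := by
      refine v.ext fun ω => ?_
      rw [b3 ω, rs_apply, hc ω ω.2]
      rfl
    have h7 : rm p e = c • (1 : End ℂ W) := by
      have h8 : ((u'⁻¹ : (End ℂ W)ˣ) : End ℂ W) * rm p e' * (u' : End ℂ W) = rm p e := by
        rw [h5]
        have h9 : ((u'⁻¹ : (End ℂ W)ˣ) : End ℂ W) * (u' : End ℂ W) = 1 := u'.inv_mul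
        calc ((u'⁻¹ : (End ℂ W)ˣ) : End ℂ W) * ((u' : End ℂ W) * rm p e *
              ((u'⁻¹ : (End ℂ W)ˣ) : End ℂ W)) * (u' : End ℂ W) =
              (((u'⁻¹ : (End ℂ W)ˣ) : End ℂ W) * (u' : End ℂ W)) * rm p e *
              (((u'⁻¹ : (End ℂ W)ˣ) : End ℂ W) * (u' : End ℂ W)) := by noncomm_ring
          _ = rm p e := by rw [h9, one_mul, mul_one]
      rw [← h8, h6, mul_smul_comm, mul_one, smul_mul_assoc]
      congr 1
      exact u'.inv_mul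
    have h10 := a3 ⟨μ, hμ⟩
    have h11 := a3 ⟨ν, hν⟩
    rw [h7, LinearMap.smul_apply, Module.End.one_apply, rs_apply] at h10 h11
    rw [h0, Rat.cast_zero, zero_smul] at h10
    rw [h1, Rat.cast_one, one_smul] at h11
    rcases smul_eq_zero.1 h10 with h12 | h12
    · rw [h12, zero_smul] at h11
      exact v.ne_zero _ h11.symm
    · exact v.ne_zero _ h12
  by_contra hcon
  by_cases h6 : ∃ ω ∈ Om R Φ σ, ev Φ e' ω = 0
  · obtain ⟨ω, hω, h7⟩ := h6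
    refine key 0 fun ω' hω' => ?_
    rcases ev_or Φ e' ω' with h8 | h8
    · rw [h8, Rat.cast_zero]
    · exact absurd ⟨ω, hω, ω', hω', h7, h8⟩ hcon
  · push Not at h6
    refine key 1 fun ω' hω' => ?_
    rcases ev_or Φ e' ω' with h8 | h8
    · exact absurd h8 (h6 ω' hω')
    · rw [h8, Rat.cast_one]

/-- The touched component for the idempotents of a decomposition of Hodge and Tate is stable. -/
private theorem coch_tch [NumberField E] [Nonempty ι] (M : Mono R Φ n g ψ) (H : IsFrob R Φ)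
    (hI : Idem Φ) {τ : ℂ ≃+* ℂ} {e : Matrix ι ι ℂ} (C : Coch Φ g ψ τ e) (hns : Ns R Φ e)
    (σ : E →+* ℂ) : mv τ '' tch R Φ σ (ev Φ e) = tch R Φ (cp τ σ) (ev Φ e) := by
  rw [← tch_mv H.diag]
  have h1 : mv τ (ev Φ e) = ev Φ (e.map τ) := funext fun μ => (ev_map Φ e τ μ).symm
  rw [h1]
  obtain ⟨u, hu, hue⟩ := C.conj
  exact (tch_conj M H hI C.mem C.idem hns (map_mem_tor C.mem τ H.diag) (ns_map hns τ) hu hue
    (cp τ σ)).symm

/-- A component is determined by each of its elements. -/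
private theorem cmp_eq_of_mem {c : Set (ℂ → ℚ)} (hc : IsCmp R Φ σ c) {F : ℂ → ℚ} (hF : F ∈ c) :
    cmp R Φ σ F = c := by
  obtain ⟨F₀, h0, rfl⟩ := hc
  ext F'
  constructor
  · rintro ⟨h1, h2⟩
    exact ⟨h1, hF.2.trans h2⟩
  · rintro ⟨h1, h2⟩
    exact ⟨h1, (hF.2.symm h0).trans h2⟩

/-- The functional which gives the scalar product of the values with those of `F`. -/
private theorem exists_functional (R : E →+* Matrix ι ι ℚ) (Φ : Matrix ι ι ℚ) (σ : E →+* ℂ)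
    (F : Om R Φ σ → ℚ) : ∃ L : Matrix ι ι ℂ →ₗ[ℂ] ℂ, ∀ (z : Matrix ι ι ℂ) (f : Om R Φ σ → ℚ),
      Vals R Φ σ z f → L z = ((f ⬝ᵥ F : ℚ) : ℂ) := by
  have h1 : ∀ ω : Om R Φ σ, ∃ w : ι → ℂ, ∃ i : ι, w ∈ HS R σ ∧ w i ≠ 0 ∧
      (ratM Φ).mulVec w = (ω : ℂ) • w := by
    rintro ⟨ω, w, hw, hw0, hω⟩
    obtain ⟨i, hi⟩ := Function.ne_iff.1 hw0
    exact ⟨w, i, hw, hi, hω⟩
  choose w i hw hi hω using h1
  refine ⟨{ toFun := fun z => ∑ ω : Om R Φ σ, (z.mulVec (w ω)) (i ω) * (w ω (i ω))⁻¹ * (F ω : ℂ)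
            map_add' := fun x y => ?_
            map_smul' := fun c x => ?_ }, fun z f hz => ?_⟩
  · rw [← Finset.sum_add_distrib]
    refine Finset.sum_congr rfl fun ω _ => ?_
    rw [Matrix.add_mulVec, Pi.add_apply]
    ring
  · rw [RingHom.id_apply, smul_eq_mul, Finset.mul_sum]
    refine Finset.sum_congr rfl fun ω _ => ?_
    rw [Matrix.smul_mulVec, Pi.smul_apply, smul_eq_mul]
    ring
  · change ∑ ω : Om R Φ σ, (z.mulVec (w ω)) (i ω) * (w ω (i ω))⁻¹ * (F ω : ℂ) = _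
    rw [dotProduct]
    push_cast
    refine Finset.sum_congr rfl fun ω _ => ?_
    rw [hz ω (w ω) (hw ω) (hω ω), Pi.smul_apply, smul_eq_mul, mul_assoc (f ω : ℂ),
      mul_inv_cancel₀ (hi ω), mul_one]

/-- Every component is the conjugate of the component touched by the idempotent. -/
private theorem comp_orbit [NumberField E] [Nonempty ι] (M : Mono R Φ n g ψ) (H : IsFrob R Φ)
    (hI : Idem Φ) {e : Matrix ι ι ℂ} (he : e ∈ tor Φ) (hee : e * e = e) (hns : Ns R Φ e)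
    (hspan : tor Φ ≤ Submodule.span ℂ (orbit Φ g e)) {σ : E →+* ℂ} {c : Set (ℂ → ℚ)}
    (hc : IsCmp R Φ σ c) : ∃ (γ : ℂ ≃+* ℂ) (σ' : E →+* ℂ),
      σ = cp γ σ' ∧ c = mv γ '' tch R Φ σ' (ev Φ e) := by
  obtain ⟨F, hF, rfl⟩ := hc
  obtain ⟨π, hπ⟩ := hF.rt
  obtain ⟨-, y, hy, hvy⟩ := mem_Ls.1 hπ.mem
  obtain ⟨L, hL⟩ := exists_functional R Φ σ (rs R Φ σ F)
  have hLy : L y ≠ 0 := by
    rw [hL y _ hvy]
    intro h0
    have h1 : (rs R Φ σ F ⬝ᵥ rs R Φ σ F : ℚ) = 0 := by exact_mod_cast h0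
    exact hπ.ne (dotProduct_self_eq_zero.1 h1)
  obtain ⟨z, hz, hLz⟩ : ∃ z ∈ orbit Φ g e, L z ≠ 0 := by
    by_contra hcon
    push Not at hcon
    have h1 : tor Φ ≤ LinearMap.ker L := hspan.trans (Submodule.span_le.2 fun z hz => hcon z hz)
    exact hLy (h1 hy)
  obtain ⟨e', he', ⟨u, hu, hue⟩, γ, rfl⟩ := hz
  have hee' : e' * e' = e' := conj_idem hee hue
  have hns' : Ns R Φ e' := ns_conj M H hI he hee hns he' hu hue
  have hz1 : e'.map γ ∈ tor Φ := map_mem_tor he' γ H.diag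
  have hz2 : e'.map γ * e'.map γ = e'.map γ := by
    have h1 := Matrix.map_mul (L := e') (M := e') (f := (γ : ℂ →+* ℂ))
    rw [hee'] at h1
    exact h1.symm
  have hne : rs R Φ σ (ev Φ (e'.map γ)) ⬝ᵥ rs R Φ σ F ≠ 0 := by
    intro h0
    apply hLz
    rw [hL _ _ (vals_ev hz1 hz2), h0, Rat.cast_zero]
  have hmem : F ∈ tch R Φ σ (ev Φ (e'.map γ)) := ⟨hF, F, hF, hne, Cns.refl⟩
  have hcmp := tch_isCmp M H hI hz1 hz2 (ns_map hns' γ) σ
  have hσ : σ = cp γ (cp γ.symm σ) := by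
    ext a
    simp [cp_apply]
  refine ⟨γ, cp γ.symm σ, hσ, ?_⟩
  rw [cmp_eq_of_mem hcmp hmem, tch_conj M H hI he hee hns he' hns' hu hue (cp γ.symm σ),
    ← tch_mv H.diag, ← hσ]
  congr 1
  exact funext fun μ => ev_map Φ e' γ μ

/-- The action on the pairs. -/
@[reducible] private def actP (hΦ : ⨆ μ, Module.End.eigenspace (Matrix.toLin' (ratM Φ)) μ = ⊤) :
    MulAction (ℂ ≃+* ℂ) (Prs R Φ) where
  smul γ q := ⟨(cp γ q.1.1, mv γ '' q.1.2), isCmp_mv hΦ γ q.2⟩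
  one_smul q := Subtype.ext (Prod.ext rfl
    ((Set.image_congr fun F _ => (mv_one : mv 1 F = F)).trans (Set.image_id' _)))
  mul_smul γ γ' q := Subtype.ext (Prod.ext rfl (by
    change mv (γ * γ') '' q.1.2 = mv γ '' (mv γ' '' q.1.2)
    rw [Set.image_image]
    rfl))

/-- The action on the embeddings. -/
@[reducible] private def actE : MulAction (ℂ ≃+* ℂ) (E →+* ℂ) where
  smul γ σ := cp γ σ
  one_smul _ := rfl
  mul_smul _ _ _ := rfl

/-- The eigenvalues are algebraic numbers. -/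
private theorem eig_alg {μ : ℂ} (hμ : μ ∈ Om R Φ σ) : IsAlgebraic ℚ μ := by
  have h1 := hasEigenvalue_of_mem hμ
  rw [Module.End.hasEigenvalue_iff_isRoot_charpoly, Matrix.charpoly_toLin'] at h1
  refine ⟨Φ.charpoly, Φ.charpoly_monic.ne_zero, ?_⟩
  have h2 : (ratM Φ).charpoly = Φ.charpoly.map (algebraMap ℚ ℂ) := by
    rw [← Matrix.charpoly_map]
    rfl
  rw [h2] at h1
  rwa [Polynomial.IsRoot.def, Polynomial.eval_map_algebraMap] at h1

/-- Automorphisms which agree on the eigenvalues act in the same way on roots. -/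
private theorem mv_congr {γ τ : ℂ ≃+* ℂ} (h : ∀ μ ∈ Om R Φ σ, τ μ = γ μ) {F : ℂ → ℚ}
    (hF : Rts R Φ σ F) : mv γ F = mv τ F := by
  funext ν
  change F (γ.symm ν) = F (τ.symm ν)
  by_cases h1 : γ.symm ν ∈ Om R Φ σ
  · have h2 := h _ h1
    rw [RingEquiv.apply_symm_apply] at h2
    rw [← h2, RingEquiv.symm_apply_apply, h2]
  · by_cases h3 : τ.symm ν ∈ Om R Φ σ
    · have h2 := h _ h3
      rw [RingEquiv.apply_symm_apply] at h2
      exact absurd (by rw [h2, RingEquiv.symm_apply_apply]; exact h3) h1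
    · rw [hF.supp _ h1, hF.supp _ h3]

/-- **All roots for an embedding are connected.** -/
theorem all_cn [NumberField E] [Nonempty ι] (H : IsFrob R Φ) (hI : Idem Φ)
    (hHT : ∀ (γ : ℂ ≃+* ℂ) (S : Finset ℂ), (∀ x ∈ S, IsAlgebraic ℚ x) →
      ∃ τ : ℂ ≃+* ℂ, (∀ x ∈ S, τ x = γ x) ∧ ∃ (g : Submodule ℂ (Matrix ι ι ℂ))
        (ψ e : Matrix ι ι ℂ), Mono R Φ n g ψ ∧ Coch Φ g ψ τ e)
    {τ₀ : ℂ ≃+* ℂ} {g₀ : Submodule ℂ (Matrix ι ι ℂ)} {ψ₀ e₀ : Matrix ι ι ℂ}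
    (M₀ : Mono R Φ n g₀ ψ₀) (C₀ : Coch Φ g₀ ψ₀ τ₀ e₀)
    (hcyc : ∀ σ σ' : E →+* ℂ, ∃ k : ℕ, ∀ a, σ' a = (τ₀ ^[k]) (σ a))
    (hspan : tor Φ ≤ Submodule.span ℂ (orbit Φ g₀ e₀))
    (hns : ∀ (g : Submodule ℂ (Matrix ι ι ℂ)) (ψ e : Matrix ι ι ℂ), Mono R Φ n g ψ → e ∈ tor Φ →
      e * e = e → e.transpose * ψ + ψ * e = ψ → Ns R Φ e)
    (σ : E →+* ℂ) (h h' : Om R Φ σ → ℚ) (hh : Rt (Ls R Φ σ) h) (hh' : Rt (Ls R Φ σ) h') :
    Cn (Ls R Φ σ) h h' := by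
  classical
  have hns₀ : Ns R Φ e₀ := hns g₀ ψ₀ e₀ M₀ C₀.mem C₀.idem C₀.mult
  -- the actions
  let iP : MulAction (ℂ ≃+* ℂ) (Prs R Φ) := actP H.diag
  let iE : MulAction (ℂ ≃+* ℂ) (E →+* ℂ) := actE
  have : Finite (Prs R Φ) := finite_prs R Φ
  have smulP : ∀ (γ : ℂ ≃+* ℂ) (q : Prs R Φ), γ • q =
      ⟨(cp γ q.1.1, mv γ '' q.1.2), isCmp_mv H.diag γ q.2⟩ := fun _ _ => rfl
  have smulE : ∀ (γ : ℂ ≃+* ℂ) (σ : E →+* ℂ), γ • σ = cp γ σ := fun _ _ => rfl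
  -- the base points
  let x₀ : (E →+* ℂ) → Prs R Φ := fun σ =>
    ⟨(σ, tch R Φ σ (ev Φ e₀)), tch_isCmp M₀ H hI C₀.mem C₀.idem hns₀ σ⟩
  have hx₀ : ∀ σ, τ₀ • x₀ σ = x₀ (cp τ₀ σ) := fun σ =>
    Subtype.ext (Prod.ext rfl (coch_tch M₀ H hI C₀ hns₀ σ))
  have hpow : ∀ (k : ℕ) (σ : E →+* ℂ), (τ₀ ^ k) • x₀ σ = x₀ (cp (τ₀ ^ k) σ) := by
    intro k
    induction k with
    | zero =>
      intro σ
      rw [pow_zero, one_smul]
      rfl
    | succ k ih =>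
      intro σ
      rw [pow_succ, mul_smul, hx₀, ih]
      rfl
  have hB : ∀ σ σ' : E →+* ℂ, ∃ γ : ℂ ≃+* ℂ, γ • x₀ σ = x₀ σ' := by
    intro σ σ'
    obtain ⟨k, hk⟩ := hcyc σ σ'
    refine ⟨τ₀ ^ k, ?_⟩
    rw [hpow]
    congr 1
    ext a
    rw [hk a, cp_apply]
    have h1 : ∀ (k : ℕ) (z : ℂ), (τ₀ ^ k) z = (τ₀ ^[k]) z := by
      intro k
      induction k with
      | zero =>
        intro z
        rfl
      | succ k ih =>
        intro z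
        rw [pow_succ, Function.iterate_succ_apply, ← ih]
        rfl
    exact h1 k _
  have hA : ∀ x : Prs R Φ, ∃ (γ : ℂ ≃+* ℂ) (σ' : E →+* ℂ), x = γ • x₀ σ' := by
    rintro ⟨⟨σ, c⟩, hc⟩
    obtain ⟨γ, σ', h1, h2⟩ := comp_orbit M₀ H hI C₀.mem C₀.idem hns₀ hspan hc
    exact ⟨γ, σ', Subtype.ext (Prod.ext h1 h2)⟩
  have htr : ∀ x y : Prs R Φ, ∃ γ : ℂ ≃+* ℂ, γ • x = y := by
    intro x y
    obtain ⟨γ, σ₁, rfl⟩ := hA x
    obtain ⟨γ', σ₂, rfl⟩ := hA y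
    obtain ⟨δ, hδ⟩ := hB σ₁ σ₂
    refine ⟨γ' * δ * γ⁻¹, ?_⟩
    rw [mul_smul, mul_smul, inv_smul_smul, hδ]
  -- the sections
  have hsec : ∀ γ : ℂ ≃+* ℂ, ∃ s : (E →+* ℂ) → Prs R Φ, (∀ b, (s b).1.1 = b) ∧
      ∀ b, γ • s b = s (γ • b) := by
    intro γ
    let b := Module.finBasis ℚ E
    have hfin : (⋃ σ : E →+* ℂ, (Om R Φ σ ∪ Set.range fun i => σ (b i))).Finite :=
      Set.finite_iUnion fun σ => (finite_Om R Φ σ).union (Set.finite_range _)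
    obtain ⟨τ, hτ, g, ψ, e, M, C⟩ := hHT γ hfin.toFinset (by
      intro x hx
      rw [Set.Finite.mem_toFinset, Set.mem_iUnion] at hx
      obtain ⟨σ, hx | ⟨i, rfl⟩⟩ := hx
      · exact eig_alg hx
      · have h1 : IsAlgebraic ℚ (b i) := Algebra.IsAlgebraic.isAlgebraic _
        exact h1.algHom σ.toRatAlgHom)
    have hS1 : ∀ (σ : E →+* ℂ), ∀ μ ∈ Om R Φ σ, τ μ = γ μ := fun σ μ hμ =>
      hτ μ (by
        rw [Set.Finite.mem_toFinset, Set.mem_iUnion]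
        exact ⟨σ, Or.inl hμ⟩)
    have hS2 : ∀ σ : E →+* ℂ, cp γ σ = cp τ σ := by
      intro σ
      have h1 : (cp γ σ).toRatAlgHom.toLinearMap = (cp τ σ).toRatAlgHom.toLinearMap := by
        refine b.ext fun i => ?_
        change γ (σ (b i)) = τ (σ (b i))
        refine (hτ _ ?_).symm
        rw [Set.Finite.mem_toFinset, Set.mem_iUnion]
        exact ⟨σ, Or.inr ⟨i, rfl⟩⟩
      ext a
      exact LinearMap.congr_fun h1 a
    have hnse : Ns R Φ e := hns g ψ e M C.mem C.idem C.mult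
    refine ⟨fun σ => ⟨(σ, tch R Φ σ (ev Φ e)), tch_isCmp M H hI C.mem C.idem hnse σ⟩,
      fun _ => rfl, fun σ => Subtype.ext (Prod.ext rfl ?_)⟩
    change mv γ '' tch R Φ σ (ev Φ e) = tch R Φ (cp γ σ) (ev Φ e)
    rw [hS2 σ, ← coch_tch M H hI C hnse σ]
    exact Set.image_congr fun F hF => mv_congr (hS1 σ) hF.1
  have hinj := Pool.Agent.FQGrp.jordan_fib (Γ := ℂ ≃+* ℂ) (X := Prs R Φ) (B := E →+* ℂ)
    (fun q => q.1.1) (fun _ _ => rfl) htr hsec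
  -- the conclusion
  obtain ⟨F, hF, rfl⟩ := exists_rts hh
  obtain ⟨F', hF', rfl⟩ := exists_rts hh'
  have h1 : (⟨(σ, cmp R Φ σ F), F, hF, rfl⟩ : Prs R Φ) = ⟨(σ, cmp R Φ σ F'), F', hF', rfl⟩ :=
    hinj rfl
  have h2 : cmp R Φ σ F = cmp R Φ σ F' := congrArg (fun q : Prs R Φ => q.1.2) h1
  have h3 : F' ∈ cmp R Φ σ F := by
    rw [h2]
    exact ⟨hF', Cns.refl⟩
  exact h3.2

end Pool.Agent.FQT
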